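import Pool.Agent.H81.GS.Chain
import Pool.Agent.H20.ENM.QMS
import Pool.Agent.H72.GS2.CHG

/-!
# The energy with the soft threshold is almost constant above the powers of `log log X`
-/

set_option autoImplicit false

open Finset Pool.Agent.H93 Pool.Agent.H6.N4D Pool.Agent.H93.GS Pool.Agent.H72.EN

namespace Pool.Agent.H81.GS

/-- dilation with a given constant -/
def DilC (th C : ℝ) : Prop := ∀ (X k q : ℕ) (lam : ℕ → ℝ), 3 ≤ X → Lio lam → q.Prime →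
  q ^ 2 ≤ 2 ^ k →
    |EB.lg X (fun n => En th lam q (2 ^ k) n) - EB.lg X (fun n => En th lam 1 (2 ^ k / q) n)| ≤
      C * (k + 1) + C * ((q : ℝ) / 2 ^ k) * Real.log X

/-- monotonicity for arbitrary lengths with a given constant -/
def MnxC (th C : ℝ) : Prop := ∀ (X N H : ℕ) (lam : ℕ → ℝ), 3 ≤ X → (∀ n, |lam n| ≤ 1) →
  1 ≤ N → N ≤ H →
    EB.lg X (fun n => En th lam 1 H n) ≤ EB.lg X (fun n => En th lam 1 N n) +
      C * ((N : ℝ) / H * Real.log X + Real.log H + 1)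

lemma log_pow_le (m : ℕ) : Real.log ((2 : ℝ) ^ m) ≤ m := by
  rw [Real.log_pow]
  have := Real.log_two_lt_d9
  have h0 : (0 : ℝ) ≤ m := Nat.cast_nonneg _
  nlinarith

/-- one prime -/
lemma gq_le {th C₁ C₂ : ℝ} (hC₁ : 0 < C₁) (hC₂ : 0 < C₂) (hd : DilC th C₁) (hm : MnxC th C₂)
    {X m p₀ q : ℕ} {lam : ℕ → ℝ} (hX : 3 ≤ X) (hlam : Lio lam) (hp : 1000 * (p₀ + 1) ≤ m)
    (hq : q ∈ EB.QQ m) :
    EB.lg X (fun n => En th lam q (2 ^ (m - p₀)) n) - EB.lg X (fun n => En th lam q (2 ^ m) n) ≤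
      EB.lg X (fun n => En th lam 1 (2 ^ (m - m / 50)) n) -
        EB.lg X (fun n => En th lam 1 (2 ^ m) n) +
      2 * (C₁ + C₂) * ((1 / 2) ^ (m / 400) * Real.log X + (m + 1)) := by
  have hY : 0 < Real.log X := by
    have := log_ge hX
    linarith
  obtain ⟨Y, hYd⟩ : ∃ Y : ℝ, Y = Real.log X := ⟨_, rfl⟩
  obtain ⟨z, hzd⟩ : ∃ z : ℝ, z = (1 / 2) ^ (m / 400) := ⟨_, rfl⟩
  have hz0 : 0 < z := by rw [hzd]; positivity
  have hq' := mem_filter.1 hq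
  have hqp : q.Prime := hq'.2
  have hq1 : 2 ^ (m / 400) < q := (mem_Ioc.1 hq'.1).1
  have hq2 : q ≤ 2 ^ (m / 200) := (mem_Ioc.1 hq'.1).2
  have hq0 : 0 < q := hqp.pos
  have hqr : (0 : ℝ) < q := by exact_mod_cast hq0
  have hqr2 : (q : ℝ) ≤ 2 ^ (m / 200) := by exact_mod_cast hq2
  have hqr1 : (2 : ℝ) ^ (m / 400) ≤ q := by exact_mod_cast hq1.le
  have hz : z * 2 ^ (m / 400) = 1 := by
    rw [hzd, ← mul_pow]
    norm_num
  have hqz : 1 / (q : ℝ) ≤ z := by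
    rw [div_le_iff₀ hqr]
    calc (1 : ℝ) = z * 2 ^ (m / 400) := hz.symm
      _ ≤ z * q := by gcongr
  have hsq : ∀ k, m / 100 ≤ k → q ^ 2 ≤ 2 ^ k := by
    intro k hk
    calc q ^ 2 ≤ (2 ^ (m / 200)) ^ 2 := Nat.pow_le_pow_left hq2 2
      _ = 2 ^ (m / 200 * 2) := by rw [pow_mul]
      _ ≤ 2 ^ k := Nat.pow_le_pow_right (by norm_num) (by omega)
  have hqk : ∀ k, m / 200 + m / 400 ≤ k → (q : ℝ) / 2 ^ k ≤ z := by
    intro k hk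
    have h2k : (0 : ℝ) < 2 ^ k := by positivity
    rw [div_le_iff₀ h2k]
    have h1 : (2 : ℝ) ^ (m / 200 + m / 400) ≤ 2 ^ k := pow_le_pow_right₀ (by norm_num) hk
    rw [pow_add] at h1
    calc (q : ℝ) ≤ 2 ^ (m / 200) := hqr2
      _ = z * (2 ^ (m / 200) * 2 ^ (m / 400)) := by
        calc (2 : ℝ) ^ (m / 200) = (z * 2 ^ (m / 400)) * 2 ^ (m / 200) := by rw [hz, one_mul]
          _ = _ := by ring
      _ ≤ z * 2 ^ k := by gcongr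
  have hl := Lio_abs hlam
  -- the upper bound
  obtain ⟨H, hHd⟩ : ∃ H : ℕ, H = 2 ^ (m - p₀) / q := ⟨_, rfl⟩
  have a1 := hd X (m - p₀) q lam hX hlam hqp (hsq _ (by omega))
  have a2 := hqk (m - p₀) (by omega)
  rw [← hHd] at a1
  have hH : 2 ^ (m - p₀ - m / 200) ≤ H := by
    rw [hHd, Nat.le_div_iff_mul_le hq0]
    calc 2 ^ (m - p₀ - m / 200) * q ≤ 2 ^ (m - p₀ - m / 200) * 2 ^ (m / 200) :=
          Nat.mul_le_mul_left _ hq2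
      _ = 2 ^ (m - p₀) := by
        rw [← pow_add]
        congr 1
        omega
  have hHu : H ≤ 2 ^ m := by
    rw [hHd]
    exact (Nat.div_le_self _ _).trans (Nat.pow_le_pow_right (by norm_num) (by omega))
  have hNH : 2 ^ (m - m / 50) ≤ H :=
    (Nat.pow_le_pow_right (by norm_num) (by omega)).trans hH
  have hH0 : (0 : ℝ) < H := by
    have : 0 < H := lt_of_lt_of_le (by positivity) hH
    exact_mod_cast this
  have a3 := hm X (2 ^ (m - m / 50)) H lam hX hl Nat.one_le_two_pow hNH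
  have a4 : ((2 ^ (m - m / 50) : ℕ) : ℝ) / H ≤ z := by
    rw [div_le_iff₀ hH0]
    have h1 : ((2 : ℝ) ^ (m - p₀ - m / 200)) ≤ H := by exact_mod_cast hH
    have h2 : (2 : ℝ) ^ (m - m / 50 + m / 400) ≤ 2 ^ (m - p₀ - m / 200) :=
      pow_le_pow_right₀ (by norm_num) (by omega)
    rw [pow_add] at h2
    push_cast
    calc (2 : ℝ) ^ (m - m / 50) = z * (2 ^ (m - m / 50) * 2 ^ (m / 400)) := by
          calc (2 : ℝ) ^ (m - m / 50) = (z * 2 ^ (m / 400)) * 2 ^ (m - m / 50) := by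
                rw [hz, one_mul]
            _ = _ := by ring
      _ ≤ z * H := by
        refine mul_le_mul_of_nonneg_left ?_ hz0.le
        linarith
  have a5 : Real.log (H : ℝ) ≤ m := by
    have h1 : (H : ℝ) ≤ 2 ^ m := by exact_mod_cast hHu
    exact (Real.log_le_log hH0 h1).trans (log_pow_le m)
  -- the lower bound
  obtain ⟨N, hNd⟩ : ∃ N : ℕ, N = 2 ^ m / q := ⟨_, rfl⟩
  have b1 := hd X m q lam hX hlam hqp (hsq _ (by omega))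
  have b2 := hqk m (by omega)
  rw [← hNd] at b1
  have hN1 : 1 ≤ N := by
    rw [hNd, Nat.le_div_iff_mul_le hq0, one_mul]
    exact hq2.trans (Nat.pow_le_pow_right (by norm_num) (by omega))
  have b3 := hm X N (2 ^ m) lam hX hl hN1 (by rw [hNd]; exact Nat.div_le_self _ _)
  have b4 : (N : ℝ) / ((2 ^ m : ℕ) : ℝ) ≤ z := by
    refine le_trans ?_ hqz
    have h2m : (0 : ℝ) < ((2 ^ m : ℕ) : ℝ) := by positivity
    rw [div_le_div_iff₀ h2m hqr, one_mul]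
    have : N * q ≤ 2 ^ m := by
      rw [hNd]
      exact Nat.div_mul_le_self _ _
    exact_mod_cast this
  have b5 : Real.log ((2 ^ m : ℕ) : ℝ) ≤ m := by
    push_cast
    exact log_pow_le m
  rw [← hYd] at a1 a3 b1 b3 hY ⊢
  rw [← hzd]
  have hmp : (((m - p₀ : ℕ) : ℝ)) ≤ m := by exact_mod_cast Nat.sub_le _ _
  have a1' := (abs_le.1 a1).2
  have b1' := (abs_le.1 b1).1
  have c1 : C₁ * ((q : ℝ) / 2 ^ (m - p₀)) * Y ≤ C₁ * z * Y := by gcongr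
  have c2 : C₁ * ((q : ℝ) / 2 ^ m) * Y ≤ C₁ * z * Y := by gcongr
  have c3 : C₁ * (((m - p₀ : ℕ) : ℝ) + 1) ≤ C₁ * (m + 1) := by gcongr
  have c4 : C₂ * (((2 ^ (m - m / 50) : ℕ) : ℝ) / H * Y + Real.log H + 1) ≤
      C₂ * (z * Y + m + 1) := by gcongr
  have c5 : C₂ * ((N : ℝ) / ((2 ^ m : ℕ) : ℝ) * Y + Real.log ((2 ^ m : ℕ) : ℝ) + 1) ≤
      C₂ * (z * Y + m + 1) := by gcongr
  linarith

/-- the defects of one level for the multiples of the primes -/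
lemma gmq_le {th C₁ C₂ W D : ℝ} (hC₁ : 0 < C₁) (hC₂ : 0 < C₂) (hd : DilC th C₁)
    (hm : MnxC th C₂) {X m p₀ : ℕ} {lam : ℕ → ℝ} (hX : 3 ≤ X) (hlam : Lio lam)
    (hp : 1000 * (p₀ + 1) ≤ m) (hW : ∑ q ∈ EB.QQ m, 1 / (q : ℝ) ≤ W) (hD : 0 ≤ D)
    (h : EB.lg X (fun n => En th lam 1 (2 ^ (m - m / 50)) n) -
        EB.lg X (fun n => En th lam 1 (2 ^ m) n) ≤ D) :
    gmq th lam X p₀ m ≤
      W * (D + 2 * (C₁ + C₂) * ((1 / 2) ^ (m / 400) * Real.log X + (m + 1))) := by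
  have hY : 0 < Real.log X := by
    have := log_ge hX
    linarith
  have h0 : 0 ≤ D + 2 * (C₁ + C₂) * ((1 / 2) ^ (m / 400) * Real.log X + (m + 1)) := by
    positivity
  unfold gmq
  calc _ ≤ ∑ q ∈ EB.QQ m, 1 / (q : ℝ) *
        (D + 2 * (C₁ + C₂) * ((1 / 2) ^ (m / 400) * Real.log X + (m + 1))) := by
        refine sum_le_sum fun q hq => mul_le_mul_of_nonneg_left ?_ (by positivity)
        have := gq_le hC₁ hC₂ hd hm hX hlam hp hq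
        linarith
    _ = (∑ q ∈ EB.QQ m, 1 / (q : ℝ)) *
        (D + 2 * (C₁ + C₂) * ((1 / 2) ^ (m / 400) * Real.log X + (m + 1))) := by
        rw [sum_mul]
    _ ≤ _ := mul_le_mul_of_nonneg_right hW h0

lemma Base_mono {lam : ℕ → ℝ} {R S X : ℕ} {e e' : ℝ} (h : e ≤ e') (hX : 3 ≤ X)
    (hb : EB.Base lam R S e X) : EB.Base lam R S e' X := by
  obtain ⟨b, β, h1, h2⟩ := hb
  have hY : 0 < Real.log X := by
    have := log_ge hX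
    linarith
  exact ⟨b, β, h1, h2.trans (mul_le_mul_of_nonneg_right h hY.le)⟩

/-- near-constancy -/
lemma part1 (hTEL : T_TEL) (hKCH : T_KCH) (hHAR : T_HAR) (hGSM : T_GSM) (hLIM : T_LIM)
    {th δ c₁ CL CM CG C₀ : ℝ} {p₀ m₁ B₀ : ℕ} (hth : 0 < th) (hδ : 0 < δ) (hc₁ : 0 < c₁)
    (hCL : 0 < CL) (hCM : 0 < CM) (hCG : 0 < CG)
    (hlev : LevC th δ c₁ CL p₀ m₁) (hmn : MonC th CM) (hgm : GmC th CG p₀)
    (hB₀ : 1 ≤ B₀) (hC₀ : 0 < C₀) (hbes : BesC B₀ C₀) (B : ℕ) (hBB : B₀ ≤ B) (hB2 : 2 ≤ B)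
    (ε : ℝ) (hε : 0 < ε) : ∃ e : ℝ, 0 < e ∧ ∀ R : ℕ, ∃ s₀ X₀ : ℕ, 3 ≤ X₀ ∧
      ∀ (s X : ℕ) (lam : ℕ → ℝ), s₀ ≤ s → X₀ ≤ X → Lio lam →
        Real.log (Real.log X) ≤ 2 ^ (s / (4000 * B)) → EB.Base lam R (2 ^ s) e X →
        ∀ k₀ k : ℕ, 4000 * B * s ≤ k₀ → k₀ ≤ k → (k : ℝ) ≤ 2 * Real.log X ^ (24 / 25 : ℝ) →
        te th lam X k₀ - ε ≤ te th lam X k := by
  obtain ⟨ε₁, k₁, X₁, hε₁, hX₁, hnear⟩ := near hTEL hHAR hGSM hLIM hth hCL hCM hCG hlev hmn hgm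
    B hB2 ε hε
  obtain ⟨e, he, hch⟩ := chain2 hKCH hLIM hB₀ hC₀ hbes B hBB hB2 (th / 2) δ c₁ ε₁ hδ hc₁ hε₁
  refine ⟨e, he, ?_⟩
  intro R
  obtain ⟨s₀, X₀, hX₀, hch⟩ := hch R
  refine ⟨s₀ + k₁, max X₀ X₁, hX₀.trans (le_max_left _ _), ?_⟩
  intro s X lam hs hX hlam hll hb k₀ k hk₀ hk hkX
  have h1 : k₁ ≤ k₀ := by
    have h2 : s ≤ 4000 * B * s := Nat.le_mul_of_pos_left _ (by positivity)
    omega
  exact hnear X k₀ k lam ((le_max_right _ _).trans hX) hlam h1 hk hkX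
    (hch s X lam (by omega) ((le_max_left _ _).trans hX) hlam hll hb k₀ k hk₀ hk hkX)

theorem pf_EN2 (hTEL : T_TEL) (hKCH : T_KCH) (hHAR : T_HAR) (hGSM : T_GSM) (hLIM : T_LIM)
    (hBES : EB.T_BES) (hLVG : T_LVG)
    (hCHG : Pool.Agent.H72.GS2.T_CH3) (hMNG : T_MNG) (hGMQ : T_GMQ)
    (hDLG : Pool.Agent.H72.GS2.T_DLG) (hMNX : Pool.Agent.H72.GS2.T_MNX) : T_EN2 := by
  intro th hth hth1
  obtain ⟨κ, c₁, δ, CL, p₀, m₁, hκ, hc₁, hδ, hCL, hpm, hlev⟩ := hLVG th hth hth1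
  obtain ⟨κ', c₁', δ', CC, p₀', m₁', hκ', hc₁', hδ', hCC, hpm', hchg⟩ := hCHG th hth hth1
  obtain ⟨CM, hCM, hmn⟩ := hMNG th hth hth1
  obtain ⟨CG, hCG, hgm⟩ := hGMQ th p₀ hth hth1
  obtain ⟨C₁, hC₁, hd⟩ := hDLG th hth hth1
  obtain ⟨C₂, hC₂, hm⟩ := hMNX th hth hth1
  obtain ⟨B₀, C₀, hB₀, hC₀, hbes⟩ := hBES
  obtain ⟨mW, hW⟩ := Pool.Agent.H20.ENM.pf_QMS
  obtain ⟨B, hBB, hB2⟩ : ∃ B : ℕ, B₀ ≤ B ∧ 2 ≤ B := ⟨max B₀ 2, le_max_left _ _, le_max_right _ _⟩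
  refine ⟨4000 * B, by omega, ?_⟩
  intro ε hε
  obtain ⟨e₁, he₁, h1⟩ := part1 hTEL hKCH hHAR hGSM hLIM hth hδ hc₁ hCL hCM hCG hlev hmn hgm hB₀
    hC₀ hbes B hBB hB2 ε hε
  -- the small constants
  obtain ⟨ε₃, hε₃d⟩ : ∃ x : ℝ, x = ε / (8 * CC * 3) := ⟨_, rfl⟩
  have hε₃ : 0 < ε₃ := by rw [hε₃d]; positivity
  obtain ⟨e₂, he₂, h2⟩ := part1 hTEL hKCH hHAR hGSM hLIM hth hδ hc₁ hCL hCM hCG hlev hmn hgm hB₀
    hC₀ hbes B hBB hB2 ε₃ hε₃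
  obtain ⟨ε₄, hε₄, hε₄1, hε₄2, hε₄3⟩ : ∃ x : ℝ, 0 < x ∧ x ≤ ε ∧ x ≤ (ε / (8 * CC)) ^ 2 ∧
      x ≤ ε / (8 * CC) :=
    ⟨min ε (min ((ε / (8 * CC)) ^ 2) (ε / (8 * CC))), by positivity, min_le_left _ _,
      (min_le_right _ _).trans (min_le_left _ _), (min_le_right _ _).trans (min_le_right _ _)⟩
  obtain ⟨e₃, he₃, h3⟩ := chain2 hKCH hLIM hB₀ hC₀ hbes B hBB hB2 (th / 2) δ' c₁' ε₄ hδ' hc₁' hε₄
  obtain ⟨ζ, hζd⟩ : ∃ x : ℝ, x = ε / (16 * CC * (1 + 6 * (C₁ + C₂))) := ⟨_, rfl⟩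
  have hζ : 0 < ζ := by rw [hζd]; positivity
  obtain ⟨X₄, hX₄, hlim⟩ := hLIM ζ hζ
  obtain ⟨x, hx1, hx2⟩ : ∃ x : ℕ, 1 ≤ x ∧ 1 / ζ ≤ x :=
    ⟨⌈1 / ζ⌉₊ + 1, by omega, by
      have := Nat.le_ceil (1 / ζ)
      push_cast
      linarith⟩
  refine ⟨min e₁ (min e₂ e₃), by positivity, ?_⟩
  intro R
  obtain ⟨s₁, X₁, hX₁, h1⟩ := h1 R
  obtain ⟨s₂, X₂, hX₂, h2⟩ := h2 R
  obtain ⟨s₃, X₃, hX₃, h3⟩ := h3 R
  refine ⟨s₁ + s₂ + s₃ + x + p₀' + m₁' + mW + 1, max X₁ (max X₂ (max X₃ X₄)), ?_⟩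
  intro s X lam hs hX hlam hll hb
  have hXX₁ : X₁ ≤ X := (le_max_left _ _).trans hX
  have hXX₂ : X₂ ≤ X := ((le_max_left _ _).trans (le_max_right _ _)).trans hX
  have hXX₃ : X₃ ≤ X :=
    (((le_max_left _ _).trans (le_max_right _ _)).trans (le_max_right _ _)).trans hX
  have hXX₄ : X₄ ≤ X :=
    (((le_max_right _ _).trans (le_max_right _ _)).trans (le_max_right _ _)).trans hX
  have hX3 : 3 ≤ X := hX₁.trans hXX₁
  have hb1 := Base_mono (min_le_left e₁ (min e₂ e₃)) hX3 hb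
  have hb2 := Base_mono ((min_le_right e₁ (min e₂ e₃)).trans (min_le_left e₂ e₃)) hX3 hb
  have hb3 := Base_mono ((min_le_right e₁ (min e₂ e₃)).trans (min_le_right e₂ e₃)) hX3 hb
  have h1 := h1 s X lam (by omega) hXX₁ hlam hll hb1
  have h2 := h2 s X lam (by omega) hXX₂ hlam hll hb2
  have h3 := h3 s X lam (by omega) hXX₃ hlam hll hb3
  refine ⟨fun k₀ k hk₀ hk hkX => h1 k₀ k hk₀ hk hkX, ?_⟩
  intro m hm0 hmX
  have hY1 := log_ge hX3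
  have hY0 : 0 < Real.log X := by linarith
  have hl := Lio_abs hlam
  have hmX2 : (m : ℝ) ≤ 2 * Real.log X ^ (24 / 25 : ℝ) := by
    have : 0 ≤ Real.log X ^ (24 / 25 : ℝ) := by positivity
    linarith
  -- sizes
  obtain ⟨S, hSd⟩ : ∃ S : ℕ, S = 4000 * B * s := ⟨_, rfl⟩
  have hSs : 8000 * s ≤ S := by
    rw [hSd]
    calc 8000 * s = 4000 * 2 * s := by ring
      _ ≤ 4000 * B * s := Nat.mul_le_mul_right _ (Nat.mul_le_mul_left _ hB2)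
  rw [← hSd] at hm0 h2 h3
  have hs1 : 1 ≤ s := by omega
  have hmx : x ≤ m / 2000 := by omega
  have hp : 1000 * (p₀' + 1) ≤ m := by omega
  -- near-constancy
  have n1 := h2 (m - p₀') m (by omega) (Nat.sub_le _ _) hmX2
  have n2 := h2 (m - m / 50) m (by omega) (Nat.sub_le _ _) hmX2
  -- the tests
  have n3 := h3 m m (by omega) le_rfl hmX2 1 (fun _ => m)
    ⟨fun i _ => ⟨le_rfl, Nat.le_mul_of_pos_left _ (by norm_num)⟩, fun i hi => by omega⟩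
  rw [sum_range_one] at n3
  have hbA := (Pool.Agent.H38.EL.pf_BAB lam X m hl).1
  have hbF := bF_nonneg lam X m (th / 2) δ' c₁'
  -- the other errors
  have hlm := hlim X m hXX₄ hmX2
  obtain ⟨Y, hYd⟩ : ∃ Y : ℝ, Y = Real.log X := ⟨_, rfl⟩
  have hm0r : (0 : ℝ) ≤ m := Nat.cast_nonneg _
  have hlm2 : (m : ℝ) + 1 ≤ ζ * Y := by
    rw [← hYd] at hlm
    have hlog0 : 0 ≤ Real.log ((m : ℝ) + 1) := Real.log_nonneg (by linarith)
    nlinarith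
  have hpow : ((1 : ℝ) / 2) ^ (m / 2000) ≤ ζ := by
    have hx0 : (0 : ℝ) < x := by exact_mod_cast hx1
    have h4 : ((1 : ℝ) / 2) ^ (m / 2000) ≤ 1 / x := by
      apply half_pow_le hx0
      exact_mod_cast hmx
    refine h4.trans ?_
    rw [div_le_iff₀ hx0]
    rw [div_le_iff₀ hζ] at hx2
    linarith
  have hpow2 : ((1 : ℝ) / 2) ^ (m / 400) ≤ ζ := by
    refine le_trans (pow_le_pow_of_le_one (by norm_num) (by norm_num) ?_) hpow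
    exact Nat.div_le_div_left (by norm_num) (by norm_num)
  have hg1 : gm th lam X p₀' m ≤ ε₃ * Y := by
    unfold gm
    rw [← te_mul hX3, ← te_mul hX3, ← sub_mul, ← hYd]
    refine mul_le_mul_of_nonneg_right (by linarith) ?_
    rw [hYd]
    exact hY0.le
  have hg2 := gmq_le (p₀ := p₀') (D := ε₃ * Y) hC₁ hC₂ hd hm hX3 hlam hp (hW m (by omega)).2
    (by rw [hYd]; positivity) (by
      rw [← te_mul hX3, ← te_mul hX3, ← sub_mul, ← hYd]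
      refine mul_le_mul_of_nonneg_right (by linarith) ?_
      rw [hYd]
      exact hY0.le)
  have hc := hchg X m lam hX3 (by omega) hlam
  unfold Hm
  rw [← hYd] at n3 hg2 hc hY0 ⊢
  obtain ⟨a, had⟩ : ∃ a : ℝ, a = bA lam X m := ⟨_, rfl⟩
  obtain ⟨b, hbd⟩ : ∃ a : ℝ, a = bF lam X m (th / 2) δ' c₁' := ⟨_, rfl⟩
  rw [← had] at n3 hc hbA ⊢
  rw [← hbd] at n3 hc hbF
  have hε₄Y : ε₄ * Y ≤ ε * Y := mul_le_mul_of_nonneg_right hε₄1 hY0.le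
  refine ⟨by linarith, hc.trans ?_⟩
  have r1 : Real.sqrt (a * Y) ≤ ε / (8 * CC) * Y := by
    rw [Real.sqrt_le_left (by positivity)]
    have h5 : a * Y ≤ ε₄ * Y * Y := mul_le_mul_of_nonneg_right (by linarith) hY0.le
    have h6 : ε₄ * Y * Y ≤ (ε / (8 * CC)) ^ 2 * Y * Y := by gcongr
    calc a * Y ≤ (ε / (8 * CC)) ^ 2 * Y * Y := h5.trans h6
      _ = (ε / (8 * CC) * Y) ^ 2 := by ring
  have r2 : a + b ≤ ε / (8 * CC) * Y :=
    n3.trans (mul_le_mul_of_nonneg_right hε₄3 hY0.le)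
  have r3 : (1 / 2) ^ (m / 400) * Y + ((m : ℝ) + 1) ≤ 2 * (ζ * Y) := by
    have := mul_le_mul_of_nonneg_right hpow2 hY0.le
    linarith
  have r4 : gmq th lam X p₀' m ≤ 3 * (ε₃ * Y) + 3 * (2 * (C₁ + C₂) * (2 * (ζ * Y))) := by
    refine hg2.trans ?_
    have h7 : 2 * (C₁ + C₂) * ((1 / 2) ^ (m / 400) * Y + ((m : ℝ) + 1)) ≤
        2 * (C₁ + C₂) * (2 * (ζ * Y)) := mul_le_mul_of_nonneg_left r3 (by positivity)
    linarith
  have r5 : (1 / 2) ^ (m / 2000) * Y ≤ ζ * Y := mul_le_mul_of_nonneg_right hpow hY0.le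
  have r6 : Real.sqrt (a * Y) + a + b + gm th lam X p₀' m + gmq th lam X p₀' m +
      (1 / 2) ^ (m / 2000) * Y + 3 * (m + 1) ≤
      2 * (ε / (8 * CC) * Y) + 4 * (ε₃ * Y) + (4 + 24 * (C₁ + C₂)) * (ζ * Y) := by
    have hpos : 0 ≤ 12 * (C₁ + C₂) * (ζ * Y) := by positivity
    linarith
  have r7 := mul_le_mul_of_nonneg_left r6 hCC.le
  refine r7.trans ?_
  have e1 : CC * (2 * (ε / (8 * CC) * Y) + 4 * (ε₃ * Y) + (4 + 24 * (C₁ + C₂)) * (ζ * Y)) =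
      ε * Y * (1 / 4 + 1 / 6 + 1 / 4) := by
    rw [hε₃d, hζd]
    field_simp
    ring
  rw [e1]
  have : 0 < ε * Y := by positivity
  linarith

end Pool.Agent.H81.GS
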