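import Pool.Agent.H22.GS.Targets
import Pool.Agent.H26.ES.COV

/-!
# Finitely many numbers cover the large Fourier coefficients, with a threshold
-/

set_option autoImplicit false

open Finset Pool.Agent.H6.N4D Pool.Agent.H93.ES Pool.Agent.H26.ES Pool.Agent.H22.GS

namespace Pool.Agent.H81.GS

theorem many_points (n w : ℕ) (hn : 0 < n) (th : ℝ) (hth : 0 < th) (hn1 : 6 < n * th ^ 2)
    (f : ℕ → ℝ) (hf : ∀ t, |f t| ≤ 1) (z : Fin n → ℝ)
    (hz : ∀ i j, i ≠ j → (n : ℝ) / 2 ^ w ≤ nd (z i - z j))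
    (hF : ∀ i, th / 2 ≤ ‖wm f w (fun t => ee (-(z i * t)))‖) : False := by
  have hn0 : (0 : ℝ) < n := by exact_mod_cast hn
  obtain ⟨T, hT⟩ : ∃ T : ℕ, T = 2 ^ w := ⟨_, rfl⟩
  have hT0 : 0 < T := by rw [hT]; positivity
  have hTr : (0 : ℝ) < T := by exact_mod_cast hT0
  have hTR : ((2 : ℝ) ^ w) = T := by rw [hT]; push_cast; ring
  have hTC : ((2 : ℂ) ^ w) = T := by rw [hT]; push_cast; ring
  obtain ⟨F, hFd⟩ : ∃ F : Fin n → ℂ, F = fun i => wm f w (fun t => ee (-(z i * t))) := ⟨_, rfl⟩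
  have hFi : ∀ i, F i * T = ∑ t ∈ range T, (f t : ℂ) * ee (-(z i * t)) := by
    intro i
    rw [hFd]
    simp only [wm]
    rw [← hT, hTC]
    exact div_mul_cancel₀ _ (by exact_mod_cast hT0.ne')
  obtain ⟨G, hG⟩ : ∃ G : ℕ → ℂ, G = fun t : ℕ => ∑ i, (starRingEnd ℂ) (F i) *
    ee (-(z i * t)) := ⟨_, rfl⟩
  obtain ⟨S, hS⟩ : ∃ S : ℝ, S = ∑ i, ‖F i‖ ^ 2 := ⟨_, rfl⟩
  have hS1 : (S : ℂ) * T = ∑ t ∈ range T, (f t : ℂ) * G t := by
    rw [hS]
    push_cast
    rw [sum_mul]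
    have : ∀ i, ((‖F i‖ : ℂ)) ^ 2 * T =
        ∑ t ∈ range T, (f t : ℂ) * ((starRingEnd ℂ) (F i) * ee (-(z i * t))) := by
      intro i
      rw [← Complex.conj_mul', mul_assoc, hFi, mul_sum]
      refine sum_congr rfl fun t _ => ?_
      ring
    simp_rw [this]
    rw [sum_comm]
    refine sum_congr rfl fun t _ => ?_
    rw [hG]
    simp only
    rw [mul_sum]
  have hS0 : 0 ≤ S := by rw [hS]; positivity
  have hS2 : S * T ≤ ∑ t ∈ range T, ‖G t‖ := by
    have h1 : ‖(S : ℂ) * T‖ = S * T := by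
      rw [norm_mul, Complex.norm_natCast, Complex.norm_real, Real.norm_of_nonneg hS0]
    rw [← h1, hS1]
    refine (norm_sum_le _ _).trans (sum_le_sum fun t _ => ?_)
    rw [norm_mul, Complex.norm_real, Real.norm_eq_abs]
    exact mul_le_of_le_one_left (norm_nonneg _) (hf t)
  have hS3 : (S * T) ^ 2 ≤ T * ∑ t ∈ range T, ‖G t‖ ^ 2 := by
    have h1 : (∑ t ∈ range T, ‖G t‖) ^ 2 ≤ (range T).card * ∑ t ∈ range T, ‖G t‖ ^ 2 :=
      sq_sum_le_card_mul_sum_sq
    rw [card_range] at h1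
    refine le_trans ?_ h1
    gcongr
  have hG2 : ((∑ t ∈ range T, ‖G t‖ ^ 2 : ℝ) : ℂ) =
      ∑ i, ∑ j, (starRingEnd ℂ) (F i) * F j * ∑ t ∈ range T, ee ((z j - z i) * t) := by
    push_cast
    have h1 : ∀ t : ℕ, ((‖G t‖ : ℂ)) ^ 2 =
        ∑ i, ∑ j, (starRingEnd ℂ) (F i) * F j * ee ((z j - z i) * t) := by
      intro t
      rw [← Complex.mul_conj', hG]
      simp only
      rw [map_sum, sum_mul_sum]
      refine sum_congr rfl fun i _ => sum_congr rfl fun j _ => ?_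
      rw [map_mul, Complex.conj_conj, ee_conj]
      rw [show (z j - z i) * (t : ℝ) = -(z i * t) + (-(-(z j * t))) by ring, ee_add]
      ring
    simp_rw [h1]
    rw [sum_comm]
    refine sum_congr rfl fun i _ => ?_
    rw [sum_comm]
    refine sum_congr rfl fun j _ => ?_
    rw [mul_sum]
  have hK : ∀ i j, ‖∑ t ∈ range T, ee ((z j - z i) * t)‖ ≤
      T * ((if i = j then 1 else 0) + 1 / (2 * n)) := by
    intro i j
    by_cases hij : i = j
    · subst hij
      rw [if_pos rfl]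
      have h1 : ‖∑ t ∈ range T, ee ((z i - z i) * t)‖ ≤ T * 1 := by
        refine (norm_sum_le _ _).trans ?_
        simp [norm_ee]
      refine h1.trans (mul_le_mul_of_nonneg_left ?_ hTr.le)
      have : (0 : ℝ) ≤ 1 / (2 * n) := by positivity
      linarith
    · rw [if_neg hij, zero_add]
      have h1 := hz j i (Ne.symm hij)
      rw [hTR] at h1
      refine (kernel_bound (z j - z i) T n hn0 hT0 h1).trans (le_of_eq ?_)
      ring
  have hG3 : ∑ t ∈ range T, ‖G t‖ ^ 2 ≤ T * (3 / 2 * S) := by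
    have h0 : 0 ≤ ∑ t ∈ range T, ‖G t‖ ^ 2 := by positivity
    have h1 : ‖((∑ t ∈ range T, ‖G t‖ ^ 2 : ℝ) : ℂ)‖ = ∑ t ∈ range T, ‖G t‖ ^ 2 := by
      rw [Complex.norm_real, Real.norm_of_nonneg h0]
    rw [← h1, hG2]
    have h2 : ‖∑ i, ∑ j, (starRingEnd ℂ) (F i) * F j * ∑ t ∈ range T, ee ((z j - z i) * t)‖ ≤
        ∑ i, ∑ j, ‖F i‖ * ‖F j‖ * (T * ((if i = j then 1 else 0) + 1 / (2 * n))) := by
      refine (norm_sum_le _ _).trans (sum_le_sum fun i _ => ?_)
      refine (norm_sum_le _ _).trans (sum_le_sum fun j _ => ?_)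
      rw [norm_mul, norm_mul, RCLike.norm_conj]
      exact mul_le_mul_of_nonneg_left (hK i j) (by positivity)
    refine h2.trans ?_
    have h3 : ∑ i : Fin n, ∑ j : Fin n,
        ‖F i‖ * ‖F j‖ * (T * ((if i = j then (1 : ℝ) else 0) + 1 / (2 * n))) =
        T * (S + 1 / (2 * n) * (∑ i, ‖F i‖) ^ 2) := by
      have h4 : ∀ i : Fin n, ∑ j : Fin n,
          ‖F i‖ * ‖F j‖ * (T * ((if i = j then (1 : ℝ) else 0) + 1 / (2 * n))) =
          T * ‖F i‖ ^ 2 + T * (1 / (2 * n)) * (‖F i‖ * ∑ j, ‖F j‖) := by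
        intro i
        have h5 : ∀ j : Fin n,
            ‖F i‖ * ‖F j‖ * (T * ((if i = j then (1 : ℝ) else 0) + 1 / (2 * n))) =
            (if i = j then ‖F i‖ * ‖F j‖ * T else 0) +
              T * (1 / (2 * n)) * (‖F i‖ * ‖F j‖) := by
          intro j
          split_ifs <;> ring
        rw [sum_congr rfl fun j _ => h5 j, sum_add_distrib, sum_ite_eq, if_pos (mem_univ i),
          mul_sum, mul_sum]
        ring
      rw [sum_congr rfl fun i _ => h4 i, sum_add_distrib, ← mul_sum, ← hS, ← mul_sum, ← sum_mul]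
      ring
    rw [h3]
    have h4 : (∑ i, ‖F i‖) ^ 2 ≤ (univ : Finset (Fin n)).card * ∑ i, ‖F i‖ ^ 2 :=
      sq_sum_le_card_mul_sum_sq
    rw [card_univ, Fintype.card_fin, ← hS] at h4
    refine mul_le_mul_of_nonneg_left ?_ hTr.le
    have h5 : 1 / (2 * (n : ℝ)) * (∑ i, ‖F i‖) ^ 2 ≤ 1 / (2 * n) * (n * S) :=
      mul_le_mul_of_nonneg_left h4 (by positivity)
    have h6 : 1 / (2 * (n : ℝ)) * (n * S) = S / 2 := by field_simp
    linarith
  have hS4 : 3 / 2 < S := by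
    have h1 : ∀ i, th ^ 2 / 4 ≤ ‖F i‖ ^ 2 := by
      intro i
      have h2 : th / 2 ≤ ‖F i‖ := by
        rw [hFd]
        exact hF i
      calc th ^ 2 / 4 = (th / 2) ^ 2 := by ring
        _ ≤ _ := pow_le_pow_left₀ (by positivity) h2 2
    rw [hS]
    calc (3 / 2 : ℝ) < n * (th ^ 2 / 4) := by linarith
      _ = ∑ _i : Fin n, th ^ 2 / 4 := by simp
      _ ≤ _ := sum_le_sum fun i _ => h1 i
  have h5 : (S * T) ^ 2 ≤ T * (T * (3 / 2 * S)) :=
    hS3.trans (mul_le_mul_of_nonneg_left hG3 hTr.le)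
  have h6 : S ^ 2 ≤ 3 / 2 * S := by
    have h7 : (T : ℝ) ^ 2 * S ^ 2 ≤ T ^ 2 * (3 / 2 * S) := by
      calc (T : ℝ) ^ 2 * S ^ 2 = (S * T) ^ 2 := by ring
        _ ≤ _ := h5
        _ = _ := by ring
    exact le_of_mul_le_mul_left h7 (by positivity)
  have h8 : 3 / 2 * S < S * S := mul_lt_mul_of_pos_right hS4 (by linarith)
  rw [sq] at h6
  linarith

theorem pf_COVt : T_COVt := by
  intro th hth hth1
  obtain ⟨k, hk⟩ := exists_nat_gt (6 / th ^ 2)
  have hk1 : 6 < k * th ^ 2 := by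
    rwa [div_lt_iff₀ (by positivity)] at hk
  have hk0 : 1 ≤ k := by
    rcases Nat.eq_zero_or_pos k with h | h
    · rw [h] at hk1
      norm_num at hk1
    · exact h
  refine ⟨k, k + 1, hk0, by positivity, fun w f hf => ?_⟩
  by_contra hcon
  push Not at hcon
  have step : ∀ S : Fin k → ℝ, ∃ α : ℝ, th / 2 ≤ ‖wm f w (fun t => ee (-(α * t)))‖ ∧
      ∀ i, ((k : ℝ) + 1) / 2 ^ w < nd (α - S i) := by
    intro S
    have := hcon S
    unfold CovT at this
    push Not at this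
    exact this
  have all : ∀ n, n ≤ k + 1 → ∃ z : ℕ → ℝ,
      (∀ i < n, th / 2 ≤ ‖wm f w (fun t => ee (-(z i * t)))‖) ∧
      ∀ i < n, ∀ j < i, ((k : ℝ) + 1) / 2 ^ w < nd (z i - z j) := by
    intro n
    induction n with
    | zero => exact fun _ => ⟨fun _ => 0, by intro i hi; omega, by intro i hi; omega⟩
    | succ n ih =>
      intro hn
      obtain ⟨z, hz1, hz2⟩ := ih (by omega)
      obtain ⟨a, ha1, ha2⟩ := step (fun i => z i)
      refine ⟨fun i => if i = n then a else z i, ?_, ?_⟩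
      · intro i hi
        by_cases h : i = n
        · simp only [h, if_true]
          exact ha1
        · simp only [if_neg h]
          exact hz1 i (by omega)
      · intro i hi j hj
        have hjn : j ≠ n := by omega
        by_cases h : i = n
        · simp only [h, if_true, if_neg hjn]
          exact ha2 ⟨j, by omega⟩
        · simp only [if_neg h, if_neg hjn]
          exact hz2 i (by omega) j hj
  obtain ⟨z, hz1, hz2⟩ := all (k + 1) le_rfl
  have hc : ((k + 1 : ℕ) : ℝ) = (k : ℝ) + 1 := by push_cast; ring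
  refine many_points (k + 1) w (by omega) th hth ?_ f hf (fun i => z i) ?_ ?_
  · rw [hc]
    have : 0 < th ^ 2 := by positivity
    linarith
  · intro i j hij
    rw [hc]
    rcases lt_trichotomy (i : ℕ) j with h | h | h
    · have := hz2 j j.2 i h
      rw [nd_sub_comm] at this
      exact this.le
    · exact absurd (Fin.ext h) hij
    · exact (hz2 i i.2 j h).le
  · intro i
    exact hz1 i i.2

end Pool.Agent.H81.GS
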