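import Pool.Agent.H22.GS.Targets
import Pool.Agent.H93.ES.CY

/-!
# All levels on the cyclic group, with a threshold
-/

set_option autoImplicit false

open Finset Pool.Agent.H18.MR Pool.Agent.H93.DE Pool.Agent.H6.N4D Pool.Agent.H93.ES
open Pool.Agent.H22.GS

namespace Pool.Agent.H81.GS

theorem pf_CYt (hA : T_LVAt) (hL : T_LVt) (hC : T_CHAt) : T_CYt := by
  intro th hth hth1
  obtain ⟨c₀, hL⟩ := hL th hth hth1
  obtain ⟨c, hc1, hc2⟩ : ∃ c : ℕ, 30 ≤ c ∧ c₀ ≤ c := ⟨max 30 c₀, le_max_left _ _, le_max_right _ _⟩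
  obtain ⟨CL, wL, hCL, hL⟩ := hL c hc2
  obtain ⟨CA, wA, hCA, hA⟩ := hA c hc1 10 (by norm_num)
  obtain ⟨wC, hC⟩ := hC c hc1
  refine ⟨4 * (CA + CL), 10 ^ 5 + wA + wL + wC, by positivity, ?_⟩
  intro N K _ x w h0 hw hN
  have h5 : 10 ^ 5 ≤ w 0 := by omega
  obtain ⟨hge, hlog⟩ := cy_sum K w h5 hw
  have hch := hC N K x w (by omega) hw hN
  have hhalf := cy_half (w 0) h5
  have hent : 0 ≤ ent (unif N) (fun n => wd x (2 ^ (w 0 / 400)) n) / 2 ^ (w 0 / 400) :=
    div_nonneg (ent_nonneg _ _) (by positivity)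
  have hl0 : 0 ≤ Real.log (w 0) / w 0 := by
    have := cy_log (w 0) h5
    positivity
  obtain ⟨E, hE⟩ : ∃ E : ℝ, E =
    ent (unif N) (fun n => wd x (2 ^ (w 0 / 400)) n) / 2 ^ (w 0 / 400) := ⟨_, rfl⟩
  obtain ⟨L, hLdef⟩ : ∃ L : ℝ, L = Real.log (w 0) / w 0 := ⟨_, rfl⟩
  rw [← hE] at hch hent
  rw [← hLdef] at hhalf hl0 hlog
  rw [← hE, ← hLdef]
  have key : ∑ j ∈ range K, (infT c x (w j) + Real.log (w j) / w j) ≤ 3 * (E + L) := by
    rw [sum_add_distrib]
    linarith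
  have t1 := mul_nonneg hCL.le (add_nonneg hent hl0)
  have t2 := mul_nonneg hCA.le (add_nonneg hent hl0)
  constructor
  · intro α g hg
    calc _ ≤ ∑ j ∈ range K, CA * (infT c x (w j) + Real.log (w j) / w j) := by
          refine sum_le_sum fun j hj => ?_
          have hj' := mem_range.1 hj
          exact hA N (w j) x (α j) (g j) (by have := hge j hj'; omega) (hN j hj')
            (hg j hj')
      _ = CA * ∑ j ∈ range K, (infT c x (w j) + Real.log (w j) / w j) := by rw [mul_sum]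
      _ ≤ CA * (3 * (E + L)) := by gcongr
      _ = 3 * (CA * (E + L)) := by ring
      _ ≤ 4 * (CA * (E + L)) + 4 * (CL * (E + L)) := by linarith
      _ = 4 * (CA + CL) * (E + L) := by ring
  · intro β
    have hex : ∀ j, ∃ α : ZMod N → ℕ → ℝ, j < K →
        (∀ n, ∀ q ∈ Pool.Agent.H93.EB.QQ (w j), ∃ b : ℤ, α n q = β j n q + (b : ℝ) / q) ∧
        avZ (fun n => ∑ q ∈ Pool.Agent.H93.EB.QQ (w j), 1 / (q : ℝ) *
          (Pool.Agent.H93.EB.ind (th ≤ ‖wm (ltr x n) (w j) (kB q n.val (β j n q))‖) *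
            ‖wm (ltr x n) (w j) (kA q n.val (α n q))‖ ^ 2)) ≤
          CL * (infT c x (w j) + Real.log (w j) / w j) := by
      intro j
      by_cases hj : j < K
      · obtain ⟨α, h1, h2⟩ := hL N (w j) x (β j) (by have := hge j hj; omega) (hN j hj)
        exact ⟨α, fun _ => ⟨h1, h2⟩⟩
      · exact ⟨fun _ _ => 0, fun h => absurd h hj⟩
    choose α hα using hex
    refine ⟨α, fun j hj => (hα j hj).1, ?_⟩
    calc _ ≤ ∑ j ∈ range K, CL * (infT c x (w j) + Real.log (w j) / w j) :=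
          sum_le_sum fun j hj => (hα j (mem_range.1 hj)).2
      _ = CL * ∑ j ∈ range K, (infT c x (w j) + Real.log (w j) / w j) := by rw [mul_sum]
      _ ≤ CL * (3 * (E + L)) := by gcongr
      _ = 3 * (CL * (E + L)) := by ring
      _ ≤ 4 * (CA * (E + L)) + 4 * (CL * (E + L)) := by linarith
      _ = 4 * (CA + CL) * (E + L) := by ring

end Pool.Agent.H81.GS
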