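import Pool.Agent.H22.GS.Targets
import Pool.Agent.H76.ES.LV

/-!
# One level, tests with the best lifts of given frequencies, with a threshold
-/

set_option autoImplicit false

open Finset Pool.Agent.H18.MR Pool.Agent.H93.DE Pool.Agent.H6.N4D Pool.Agent.H93.ES
open Pool.Agent.H76.ES Pool.Agent.H22.GS

namespace Pool.Agent.H81.GS

attribute [local irreducible] rhoT

lemma lv_pointT {k : ℕ} (th C₁ : ℝ) (hC₁ : 0 < C₁) (f : ℕ → ℝ) (hf : ∀ t, |f t| ≤ 1) (w q r₀ : ℕ)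
    (hq : 1 ≤ q) (hw : q ≤ 2 ^ w) (S : Fin k → ℝ) (β : ℝ) :
    ∃ (a : ℝ) (g : Fin k → ℕ → ℂ), (∃ b : ℤ, a = β + (b : ℝ) / q) ∧
      (∀ i, (∀ t < 2 ^ w, ‖g i t‖ ≤ 1) ∧
        ∑ t ∈ range (2 ^ w - 1), ‖g i (t + 1) - g i t‖ ≤ 2 * Real.pi * C₁) ∧
      Pool.Agent.H93.EB.ind (th ≤ ‖wm f w (kB q r₀ β)‖) * ‖wm f w (kA q r₀ a)‖ ^ 2 ≤
        ∑ i, ‖wm f w (fun t => kA q r₀ (S i) t * g i t)‖ ^ 2 +
          9 * Pool.Agent.H93.EB.ind (∃ β : ℝ, FarT q w S C₁ β ∧ th ≤ ‖wm f w (kB q r₀ β)‖) := by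
  classical
  have hV : 0 ≤ 2 * Real.pi * C₁ := by positivity
  have hind : ∀ p : Prop, 0 ≤ Pool.Agent.H93.EB.ind p := by
    intro p
    unfold Pool.Agent.H93.EB.ind
    split_ifs <;> norm_num
  have hzero : ∀ i : Fin k, (∀ t < 2 ^ w, ‖(fun _ _ => 0 : Fin k → ℕ → ℂ) i t‖ ≤ 1) ∧
      ∑ t ∈ range (2 ^ w - 1), ‖(fun _ _ => 0 : Fin k → ℕ → ℂ) i (t + 1) -
        (fun _ _ => 0 : Fin k → ℕ → ℂ) i t‖ ≤ 2 * Real.pi * C₁ := by
    intro i
    refine ⟨fun t _ => by simp, ?_⟩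
    simpa using hV
  by_cases h1 : th ≤ ‖wm f w (kB q r₀ β)‖
  · by_cases h2 : FarT q w S C₁ β
    · refine ⟨β, fun _ _ => 0, ⟨0, by simp⟩, hzero, ?_⟩
      have h3 : Pool.Agent.H93.EB.ind (th ≤ ‖wm f w (kB q r₀ β)‖) = 1 := by
        unfold Pool.Agent.H93.EB.ind; exact if_pos h1
      have h4 : Pool.Agent.H93.EB.ind
          (∃ β : ℝ, FarT q w S C₁ β ∧ th ≤ ‖wm f w (kB q r₀ β)‖) = 1 := by
        unfold Pool.Agent.H93.EB.ind; exact if_pos ⟨β, h2, h1⟩
      rw [h3, h4]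
      have h5 := lv_kA f hf w q r₀ hq hw β
      have h6 : ‖wm f w (kA q r₀ β)‖ ^ 2 ≤ 3 ^ 2 := by
        gcongr
      have h7 : 0 ≤ ∑ i : Fin k, ‖wm f w (fun t => kA q r₀ (S i) t *
          (fun _ _ => 0 : Fin k → ℕ → ℂ) i t)‖ ^ 2 := sum_nonneg fun i _ => by positivity
      linarith
    · unfold FarT at h2
      push Not at h2
      obtain ⟨i, b, hb⟩ := h2
      set y : ℝ := β - S i - (b : ℝ) / q with hy
      set δ : ℝ := y - round y with hδ
      have hδ1 : |δ| < C₁ / 2 ^ w := hb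
      have ha : β + ((-b : ℤ) : ℝ) / q = S i + (round y : ℝ) + δ := by
        rw [hδ, hy]; push_cast; ring
      refine ⟨β + ((-b : ℤ) : ℝ) / q, fun j t => if j = i then ee (-(δ * t)) else 0,
        ⟨-b, rfl⟩, ?_, ?_⟩
      · intro j
        by_cases hj : j = i
        · subst hj
          refine ⟨fun t _ => by simp [norm_ee], ?_⟩
          have h3 : ∀ t ∈ range (2 ^ w - 1), ‖(if j = j then ee (-(δ * ((t + 1 : ℕ) : ℝ))) else 0) -
              (if j = j then ee (-(δ * (t : ℝ))) else 0)‖ ≤ 2 * Real.pi * |δ| := by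
            intro t _
            rw [if_pos rfl, if_pos rfl]
            have h4 : ee (-(δ * ((t + 1 : ℕ) : ℝ))) = ee (-(δ * (t : ℝ))) * ee (-δ) := by
              rw [← ee_add]; congr 1; push_cast; ring
            rw [h4, show ee (-(δ * (t : ℝ))) * ee (-δ) - ee (-(δ * (t : ℝ))) =
              ee (-(δ * (t : ℝ))) * (ee (-δ) - 1) by ring, norm_mul, norm_ee, one_mul]
            have h5 := norm_ee_sub_one_le (-δ)
            rwa [abs_neg] at h5
          refine (sum_le_sum h3).trans ?_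
          rw [sum_const, nsmul_eq_mul, card_range]
          have h5 : ((2 ^ w - 1 : ℕ) : ℝ) ≤ 2 ^ w := by
            have : (2 ^ w - 1 : ℕ) ≤ 2 ^ w := Nat.sub_le _ _
            exact_mod_cast this
          have h6 : (2 : ℝ) ^ w * |δ| ≤ C₁ := by
            have := hδ1.le
            rw [le_div_iff₀ (by positivity)] at this
            linarith
          calc ((2 ^ w - 1 : ℕ) : ℝ) * (2 * Real.pi * |δ|) ≤ 2 ^ w * (2 * Real.pi * |δ|) := by
                gcongr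
            _ = 2 * Real.pi * (2 ^ w * |δ|) := by ring
            _ ≤ 2 * Real.pi * C₁ := by gcongr
        · refine ⟨fun t _ => by simp [hj], ?_⟩
          simpa [hj] using hV
      · have h3 : Pool.Agent.H93.EB.ind (th ≤ ‖wm f w (kB q r₀ β)‖) = 1 := by
          unfold Pool.Agent.H93.EB.ind; exact if_pos h1
        rw [h3, one_mul]
        have h4 : wm f w (kA q r₀ (β + ((-b : ℤ) : ℝ) / q)) =
            wm f w (fun t => kA q r₀ (S i) t * (if i = i then ee (-(δ * t)) else 0)) := by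
          unfold wm
          congr 1
          refine sum_congr rfl fun t _ => ?_
          congr 1
          change (DR q (r₀ + t) : ℂ) * ee (-((β + ((-b : ℤ) : ℝ) / q) * (t : ℝ))) =
            (DR q (r₀ + t) : ℂ) * ee (-(S i * (t : ℝ))) *
              (if i = i then ee (-(δ * (t : ℝ))) else 0)
          rw [if_pos rfl, ha]
          have h5 : ee (-((S i + (round y : ℝ) + δ) * (t : ℝ))) =
              ee (-(S i * (t : ℝ))) * ee (-(δ * (t : ℝ))) := by
            have h6 : -((S i + (round y : ℝ) + δ) * (t : ℝ)) =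
                -(S i * (t : ℝ)) + -(δ * (t : ℝ)) + ((-(round y * (t : ℤ)) : ℤ) : ℝ) := by
              push_cast; ring
            rw [h6, ee_add, ee_int, mul_one, ee_add]
          rw [h5]; ring
        rw [h4]
        have h5 : ‖wm f w (fun t => kA q r₀ (S i) t * (if i = i then ee (-(δ * t)) else 0))‖ ^ 2 ≤
            ∑ j, ‖wm f w (fun t => kA q r₀ (S j) t *
              (if j = i then ee (-(δ * t)) else 0))‖ ^ 2 :=
          single_le_sum (f := fun j => ‖wm f w (fun t => kA q r₀ (S j) t *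
              (if j = i then ee (-(δ * t)) else 0))‖ ^ 2) (fun j _ => by positivity) (mem_univ i)
        have h6 := hind (∃ β : ℝ, FarT q w S C₁ β ∧ th ≤ ‖wm f w (kB q r₀ β)‖)
        exact h5.trans (le_add_of_nonneg_right (by linarith))
  · refine ⟨β, fun _ _ => 0, ⟨0, by simp⟩, hzero, ?_⟩
    have h3 : Pool.Agent.H93.EB.ind (th ≤ ‖wm f w (kB q r₀ β)‖) = 0 := by
      unfold Pool.Agent.H93.EB.ind; exact if_neg h1
    rw [h3, zero_mul]
    have h6 := hind (∃ β : ℝ, FarT q w S C₁ β ∧ th ≤ ‖wm f w (kB q r₀ β)‖)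
    have h7 : 0 ≤ ∑ i : Fin k, ‖wm f w (fun t => kA q r₀ (S i) t *
        (fun _ _ => 0 : Fin k → ℕ → ℂ) i t)‖ ^ 2 := sum_nonneg fun i _ => by positivity
    linarith

lemma lv_avZT {k N : ℕ} [NeZero N] (F : ZMod N → ℝ) (G : Fin k → ZMod N → ℝ) (H : ZMod N → ℝ)
    (h : ∀ n, F n ≤ (∑ i, G i n) + 9 * H n) :
    avZ F ≤ ∑ i, avZ (fun n => G i n) + 9 * avZ (fun n => H n) := by
  have hN : (0 : ℝ) < N := by
    have := NeZero.pos N
    exact_mod_cast this
  have h1 : ∑ i, avZ (fun n => G i n) + 9 * avZ (fun n => H n) =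
      (∑ n, ((∑ i, G i n) + 9 * H n)) / N := by
    unfold avZ
    rw [sum_add_distrib, add_div, ← mul_sum, mul_div_assoc, sum_comm, ← sum_div]
  rw [h1]
  unfold avZ
  exact div_le_div_of_nonneg_right (sum_le_sum fun n _ => h n) hN.le

theorem pf_LVt (hA : T_LVAt) (hB : T_LVBt) (hC : T_COVt) (_ : T_QSU) : T_LVt := by
  classical
  intro th hth hth1
  obtain ⟨k, C₀, -, hC₀, hcov⟩ := hC th hth hth1
  obtain ⟨c₀, hB⟩ := hB th C₀ k hth hth1 hC₀
  refine ⟨max 30 c₀, fun c hc => ?_⟩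
  obtain ⟨CB, C₁, wB, hCB, hC₁, hB⟩ := hB c ((le_max_right _ _).trans hc)
  obtain ⟨CA, wA, hCA, hA⟩ := hA c ((le_max_left _ _).trans hc) (2 * Real.pi * C₁) (by positivity)
  obtain ⟨wE, hE⟩ := lv_eps CB hCB
  refine ⟨k * CA + 9 * CB, wA + wB + wE, by positivity, ?_⟩
  intro N w _ x β hw hdvd
  have hltr : ∀ n t, |ltr x n t| ≤ 1 := by
    intro n t
    unfold ltr sg
    split_ifs <;> simp
  have hS : ∀ n : ZMod N, ∃ S : Fin k → ℝ, CovT (ltr x n) w S C₀ (th / 2) :=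
    fun n => hcov w (ltr x n) (hltr n)
  choose S hS using hS
  have hpt : ∀ (n : ZMod N) (q : ℕ), ∃ (a : ℝ) (g : Fin k → ℕ → ℂ), q ∈ Pool.Agent.H93.EB.QQ w →
      (∃ b : ℤ, a = β n q + (b : ℝ) / q) ∧
      (∀ i, (∀ t < 2 ^ w, ‖g i t‖ ≤ 1) ∧
        ∑ t ∈ range (2 ^ w - 1), ‖g i (t + 1) - g i t‖ ≤ 2 * Real.pi * C₁) ∧
      Pool.Agent.H93.EB.ind (th ≤ ‖wm (ltr x n) w (kB q n.val (β n q))‖) *
        ‖wm (ltr x n) w (kA q n.val a)‖ ^ 2 ≤
        ∑ i, ‖wm (ltr x n) w (fun t => kA q n.val (S n i) t * g i t)‖ ^ 2 +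
          9 * Pool.Agent.H93.EB.ind (∃ β : ℝ, FarT q w (S n) C₁ β ∧
            th ≤ ‖wm (ltr x n) w (kB q n.val β)‖) := by
    intro n q
    by_cases hq : q ∈ Pool.Agent.H93.EB.QQ w
    · have hq' := mem_filter.1 hq
      have hq1 : 1 ≤ q := hq'.2.one_lt.le
      have hq2 : q ≤ 2 ^ w :=
        (mem_Ioc.1 hq'.1).2.trans (Nat.pow_le_pow_right (by norm_num) (Nat.div_le_self _ _))
      obtain ⟨a, g, h⟩ := lv_pointT th C₁ hC₁ (ltr x n) (hltr n) w q n.val hq1 hq2 (S n) (β n q)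
      exact ⟨a, g, fun _ => h⟩
    · exact ⟨0, fun _ _ => 0, fun h => absurd h hq⟩
  choose α g hpt using hpt
  refine ⟨α, fun n q hq => (hpt n q hq).1, ?_⟩
  have hAi : ∀ i : Fin k, avZ (fun n => ∑ q ∈ Pool.Agent.H93.EB.QQ w, 1 / (q : ℝ) *
      ‖wm (ltr x n) w (fun t => kA q n.val (S n i) t * g n q i t)‖ ^ 2) ≤
      CA * (infT c x w + Real.log w / w) := by
    intro i
    exact hA N w x (fun n => S n i) (fun n q => g n q i) (by omega) hdvd
      (fun n q hq => (hpt n q hq).2.1 i)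
  have hBB := hB N w x S (by omega) hdvd hS
  have hEE := hE w (by omega)
  have key : avZ (fun n => ∑ q ∈ Pool.Agent.H93.EB.QQ w, 1 / (q : ℝ) *
      (Pool.Agent.H93.EB.ind (th ≤ ‖wm (ltr x n) w (kB q n.val (β n q))‖) *
        ‖wm (ltr x n) w (kA q n.val (α n q))‖ ^ 2)) ≤
      ∑ i : Fin k, avZ (fun n => ∑ q ∈ Pool.Agent.H93.EB.QQ w, 1 / (q : ℝ) *
        ‖wm (ltr x n) w (fun t => kA q n.val (S n i) t * g n q i t)‖ ^ 2) +
      9 * avZ (fun n => ∑ q ∈ Pool.Agent.H93.EB.QQ w, 1 / (q : ℝ) *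
        Pool.Agent.H93.EB.ind (∃ β : ℝ, FarT q w (S n) C₁ β ∧
          th ≤ ‖wm (ltr x n) w (kB q n.val β)‖)) := by
    refine lv_avZT _ _ _ fun n => ?_
    rw [sum_comm, mul_sum, ← sum_add_distrib]
    refine sum_le_sum fun q hq => ?_
    have h1 := (hpt n q hq).2.2
    have h2 : (0 : ℝ) ≤ 1 / (q : ℝ) := by positivity
    have h3 := mul_le_mul_of_nonneg_left h1 h2
    rw [mul_add, mul_sum] at h3
    linarith
  have hsum : ∑ i : Fin k, avZ (fun n => ∑ q ∈ Pool.Agent.H93.EB.QQ w, 1 / (q : ℝ) *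
        ‖wm (ltr x n) w (fun t => kA q n.val (S n i) t * g n q i t)‖ ^ 2) ≤
      k * (CA * (infT c x w + Real.log w / w)) := by
    refine (sum_le_sum fun i _ => hAi i).trans ?_
    rw [sum_const, card_univ, Fintype.card_fin, nsmul_eq_mul]
  refine key.trans ?_
  have : (k * CA + 9 * CB) * (infT c x w + Real.log w / w) =
      k * (CA * (infT c x w + Real.log w / w)) +
        9 * (CB * infT c x w + CB * (Real.log w / w)) := by ring
  rw [this]
  linarith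

end Pool.Agent.H81.GS
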