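import Pool.Agent.H81.GS.LVB

/-!
# One level, tests (B), with a threshold: all octaves
-/

set_option autoImplicit false

namespace Pool.Agent.H81.GS

open Finset Pool.Agent.H18.MR Pool.Agent.H93.DE Pool.Agent.H6.N4D Pool.Agent.H93.ES
open Pool.Agent.H70.ES Pool.Agent.H81.ES Pool.Agent.H22.GS

attribute [local irreducible] rhoT

/-- the label of some numbers -/
lemma labT {k : ℕ} (w : ℕ) (S : Fin k → ℝ) :
    ∃ l : Fin ((2 ^ w) ^ k), ∀ i, nd (S i - decT w l i) ≤ 1 / 2 ^ w := by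
  choose l0 z δ h h0 h1 using fun i => rnd w (S i)
  refine ⟨finFunctionFinEquiv l0, fun i => ?_⟩
  have e1 : decT w (finFunctionFinEquiv l0) i = (l0 i : ℕ) / 2 ^ w := by
    unfold decT
    rw [Equiv.symm_apply_apply]
  rw [e1]
  have e2 : S i - (l0 i : ℕ) / 2 ^ w = δ i + (z i : ℤ) := by
    rw [h i]
    ring
  rw [e2, nd_add_int]
  exact (nd_le_abs _).trans (by rw [abs_of_nonneg (h0 i)]; exact h1 i)

lemma info_nnT {N R m : ℕ} [NeZero N] (x : ZMod N → Bool) (d : Fin R → ℕ) :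
    0 ≤ info (tup x d) (2 ^ m) (primorial (2 ^ m)) (pr m) := info_nonneg _ _ _ _

lemma infT_nonneg {N : ℕ} [NeZero N] (c : ℕ) (x : ZMod N → Bool) (w : ℕ) : 0 ≤ infT c x w := by
  unfold infT
  exact sum_nonneg fun m _ => div_nonneg (avE_nonneg fun e => info_nnT x _) (by positivity)

lemma small_T {w m K : ℕ} {th : ℝ} (hth : 0 < th) (hK : 1 / th ≤ 2 ^ K)
    (h : m + 13 + K ≤ w) : (6 : ℝ) * 2 ^ m / 2 ^ w ≤ th / 1000 := by
  rw [div_le_div_iff₀ (by positivity) (by norm_num)]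
  have h1 : 1 ≤ th * 2 ^ K := by
    rw [div_le_iff₀ hth] at hK
    linarith
  have h2 : (2 : ℝ) ^ w = 2 ^ K * (2 ^ 13 * 2 ^ m) * 2 ^ (w - (m + 13 + K)) := by
    rw [← pow_add, ← pow_add, ← pow_add]
    congr 1
    omega
  have h3 : (1 : ℝ) ≤ 2 ^ (w - (m + 13 + K)) := one_le_pow₀ (by norm_num)
  have h4 : (0 : ℝ) < 2 ^ m := by positivity
  have h5 : 2 ^ 13 * (2 : ℝ) ^ m ≤ th * 2 ^ w := by
    rw [h2]
    calc 2 ^ 13 * (2 : ℝ) ^ m = 1 * (2 ^ 13 * 2 ^ m) * 1 := by ring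
      _ ≤ (th * 2 ^ K) * (2 ^ 13 * 2 ^ m) * 2 ^ (w - (m + 13 + K)) :=
          mul_le_mul (mul_le_mul_of_nonneg_right h1 (by positivity)) h3 (by norm_num)
            (by positivity)
      _ = th * (2 ^ K * (2 ^ 13 * 2 ^ m) * 2 ^ (w - (m + 13 + K))) := by ring
  linarith

lemma big_w (w : ℕ) (hw : 6 ≤ w) : w ≤ 2 ^ (w / 2) := by
  induction w using Nat.strong_induction_on with
  | _ w ih =>
    by_cases h : w < 8
    · interval_cases w <;> norm_num
    · have h1 := ih (w - 2) (by omega) (by omega)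
      have h2 : w / 2 = (w - 2) / 2 + 1 := by omega
      rw [h2, pow_succ]
      omega

theorem pf_LVBt (hO : T_DVO) (hT : T_HFT) (hD : T_DETt) : T_LVBt := by
  intro th C₀ k hth hth1 hC₀
  obtain ⟨C₁, w₁, hC1, hdet⟩ := hD th (C₀ + 1) hth hth1 (by linarith)
  obtain ⟨c₀, hc₀⟩ := pow_unbounded_of_one_lt (512000000 / th ^ 2) (by norm_num : (1 : ℝ) < 2)
  obtain ⟨K, hK⟩ := pow_unbounded_of_one_lt (1 / th) (by norm_num : (1 : ℝ) < 2)
  obtain ⟨Q, hQ⟩ := exists_nat_gt (14000 / th)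
  have hQ0 : 0 < Q := by
    have : (0 : ℝ) < Q := lt_trans (by positivity) hQ
    exact_mod_cast this
  have hQ1 : 14 / (Q : ℝ) ≤ th / 1000 := by
    have h1 : (0 : ℝ) < Q := by exact_mod_cast hQ0
    rw [div_lt_iff₀ hth] at hQ
    rw [div_le_div_iff₀ h1 (by norm_num)]
    linarith
  refine ⟨c₀, fun c hcc => ?_⟩
  have hc : 12800 * 40000 ≤ th ^ 2 * 2 ^ c := by
    have h1 : (2 : ℝ) ^ c₀ ≤ 2 ^ c := pow_le_pow_right₀ (by norm_num) hcc
    have h2 : 512000000 / th ^ 2 ≤ (2 : ℝ) ^ c := hc₀.le.trans h1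
    rw [div_le_iff₀ (by positivity)] at h2
    linarith
  obtain ⟨V, hV⟩ : ∃ V : ℕ, 160000 * k + 800 ≤ V := ⟨_, le_rfl⟩
  obtain ⟨U, hU⟩ : ∃ U : ℕ, 200000 ≤ U := ⟨_, le_rfl⟩
  refine ⟨80000 * 2 ^ c, C₁ + 3, max w₁ (U + 2 * c + 2 * K + Q + 12800 * V), by positivity,
    by linarith, ?_⟩
  intro N w _ x S hw hN hcov
  have hw1 : w₁ ≤ w := (le_max_left _ _).trans hw
  have hw2 : U + 2 * c + 2 * K + Q + 12800 * V ≤ w := (le_max_right _ _).trans hw
  have hw5 : 1 ≤ w := by omega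
  have hwr : (200000 : ℝ) ≤ w := by exact_mod_cast (show 200000 ≤ w by omega)
  have hw0 : (0 : ℝ) < w := by linarith
  have hr : rhoT c w ≤ w := by
    refine rhoT_le hw5 ?_
    have h1 := big_w w (by omega)
    calc 2 ^ c * w ≤ 2 ^ c * 2 ^ (w / 2) := Nat.mul_le_mul_left _ h1
      _ = 2 ^ (c + w / 2) := by rw [pow_add]
      _ ≤ 2 ^ w := Nat.pow_le_pow_right (by norm_num) (by omega)
  have hQw : 4 * (Q : ℝ) ≤ 2 ^ (98 * w) := by
    have h1 : Q < 2 ^ Q := Nat.lt_two_pow_self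
    have h2 : 4 * Q ≤ 2 ^ (98 * w) := by
      calc 4 * Q ≤ 2 ^ 2 * 2 ^ Q := by omega
        _ = 2 ^ (2 + Q) := by rw [pow_add]
        _ ≤ 2 ^ (98 * w) := Nat.pow_le_pow_right (by norm_num) (by omega)
    exact_mod_cast h2
  choose l hl using fun n : ZMod N => labT w (S n)
  obtain ⟨u, hu⟩ : ∃ u : ℕ, u = w / 12800 := ⟨_, rfl⟩
  have hu10 : 10 ≤ u := by omega
  have huk : 160000 * k + 800 ≤ u := by omega
  have hur : (w : ℝ) ≤ 25600 * u := by
    have : w ≤ 25600 * u := by omega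
    exact_mod_cast this
  have hu0 : (10 : ℝ) ≤ u := by exact_mod_cast hu10
  have hl2 := Real.log_two_gt_d9
  have hl2' := Real.log_two_lt_d9
  obtain ⟨κ, hκ⟩ : ∃ κ : ℝ, κ = u * Real.log 2 := ⟨_, rfl⟩
  have hκ1 : 0.69 * (u : ℝ) ≤ κ := by
    rw [hκ, mul_comm (u : ℝ)]
    exact mul_le_mul_of_nonneg_right (by linarith) (by linarith)
  have hκ0 : 0 < κ := by linarith
  have hexp : Real.exp κ = 2 ^ u := by
    rw [hκ, Real.exp_nat_mul, Real.exp_log (by norm_num)]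
  have hk2 : 2 / κ ≤ 80000 / w := by
    rw [div_le_div_iff₀ hκ0 hw0]
    linarith
  have hk0 : 0 < 2 / κ := by positivity
  -- one octave
  have hoct : ∀ m ∈ Ico (w / 400) (w / 200),
      avZ (fun n => ∑ q ∈ oct m, 1 / (q : ℝ) * Pool.Agent.H93.EB.ind
        (∃ β : ℝ, FarT q w (S n) (C₁ + 3) β ∧ th ≤ ‖wm (ltr x n) w (kB q n.val β)‖)) ≤
      (1 / 2 ^ m) * (2 / κ * (avE (2 ^ rhoT c w) (2 ^ (w - rhoT c w)) (fun e =>
        info (tup x (pos e)) (2 ^ m) (primorial (2 ^ m)) (pr m)) + k * w * Real.log 2 +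
        2 ^ u * (2 * (1 / 2) ^ (m / 8) * (oct m).card))) := by
    intro m hm
    rw [mem_Ico] at hm
    have hN' : primorial (2 ^ (m + 1)) ∣ N :=
      (primorial_dvd (Nat.pow_le_pow_right (by norm_num) (by omega))).trans hN
    have hs : (6 : ℝ) * 2 ^ m / 2 ^ w ≤ th / 1000 := small_T hth hK.le (by omega)
    have hd : ∀ n, ∑ q ∈ oct m, (∑ r ∈ range q, Pool.Agent.H93.EB.ind (∃ β : ℝ,
        FarT q w (decT w (l n)) C₁ β ∧ 97 / 100 * th ≤ ‖wm (ltr x n) w (kB q r β)‖)) /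
          (q : ℝ) ≤ (1 / 2) ^ (m / 8) * (oct m).card := by
      intro n
      refine le_trans (le_of_eq ?_) (hdet k w m (ltr x n) (decT w (l n)) hw1 hm.1 hm.2
        (abs_ltr x n) (cov_rndT (hl n) (hcov n)))
      refine sum_congr rfl fun q _ => ?_
      rw [sum_ind]
    have h1 := oct_BT hO hT hth hc hQ0 hQ1 hr hw5 hm.2 hs hQw hκ0 N x S l hl hN' hd
    rw [hexp] at h1
    have h2 : avZ (fun n => ∑ q ∈ oct m, 1 / (q : ℝ) * Pool.Agent.H93.EB.ind
        (∃ β : ℝ, FarT q w (S n) (C₁ + 3) β ∧ th ≤ ‖wm (ltr x n) w (kB q n.val β)‖)) ≤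
        avZ (fun n => (1 / 2 ^ m) * ∑ q ∈ oct m, Pool.Agent.H93.EB.ind
        (∃ β : ℝ, FarT q w (S n) (C₁ + 3) β ∧ th ≤ ‖wm (ltr x n) w (kB q n.val β)‖)) := by
      refine avZ_mono fun n => ?_
      rw [mul_sum]
      refine sum_le_sum fun q hq => ?_
      obtain ⟨a1, -, -⟩ := mem_oct hq
      have h6 : 1 / (q : ℝ) ≤ 1 / 2 ^ m := by
        apply one_div_le_one_div_of_le (by positivity)
        have : ((2 ^ m : ℕ) : ℝ) ≤ q := by exact_mod_cast a1.le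
        push_cast at this
        exact this
      exact mul_le_mul_of_nonneg_right h6 (ind_nn _)
    refine h2.trans ?_
    rw [avZ_mul]
    exact mul_le_mul_of_nonneg_left h1 (by positivity)
  have hmain : avZ (fun n => ∑ q ∈ Pool.Agent.H93.EB.QQ w, 1 / (q : ℝ) *
      Pool.Agent.H93.EB.ind (∃ β : ℝ, FarT q w (S n) (C₁ + 3) β ∧
          th ≤ ‖wm (ltr x n) w (kB q n.val β)‖)) ≤
      ∑ m ∈ Ico (w / 400) (w / 200), (1 / 2 ^ m) * (2 / κ * (avE (2 ^ rhoT c w)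
        (2 ^ (w - rhoT c w))
        (fun e => info (tup x (pos e)) (2 ^ m) (primorial (2 ^ m)) (pr m)) +
        k * w * Real.log 2 + 2 ^ u * (2 * (1 / 2) ^ (m / 8) * (oct m).card))) := by
    have h1 : avZ (fun n => ∑ q ∈ Pool.Agent.H93.EB.QQ w, 1 / (q : ℝ) *
        Pool.Agent.H93.EB.ind (∃ β : ℝ, FarT q w (S n) (C₁ + 3) β ∧
          th ≤ ‖wm (ltr x n) w (kB q n.val β)‖)) ≤
        avZ (fun n => ∑ m ∈ Ico (w / 400) (w / 200), ∑ q ∈ oct m, 1 / (q : ℝ) *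
        Pool.Agent.H93.EB.ind (∃ β : ℝ, FarT q w (S n) (C₁ + 3) β ∧
          th ≤ ‖wm (ltr x n) w (kB q n.val β)‖)) :=
      avZ_mono fun n => sum_QQ_le fun q => mul_nonneg (by positivity) (ind_nn _)
    refine h1.trans ?_
    rw [avZ_sum (Ico (w / 400) (w / 200)) (fun m n => ∑ q ∈ oct m, 1 / (q : ℝ) *
        Pool.Agent.H93.EB.ind (∃ β : ℝ, FarT q w (S n) (C₁ + 3) β ∧
          th ≤ ‖wm (ltr x n) w (kB q n.val β)‖))]
    exact sum_le_sum hoct
  refine hmain.trans ?_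
  -- the parts
  have hr2 := (rhoT_pow c w hw5).2
  have hr2' : (2 : ℝ) ^ rhoT c w ≤ 2 ^ c * w := by exact_mod_cast hr2
  have hinf := infT_nonneg c x w
  have p1 : ∑ m ∈ Ico (w / 400) (w / 200), (1 / 2 ^ m) * (2 / κ *
      avE (2 ^ rhoT c w) (2 ^ (w - rhoT c w)) (fun e =>
        info (tup x (pos e)) (2 ^ m) (primorial (2 ^ m)) (pr m))) =
      (2 / κ * 2 ^ rhoT c w) * infT c x w := by
    unfold infT
    rw [mul_sum]
    refine sum_congr rfl fun m _ => ?_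
    field_simp
  obtain ⟨G, hG⟩ : ∃ G : ℝ, G = ∑ m ∈ Ico (w / 400) (w / 200), (1 : ℝ) / 2 ^ m := ⟨_, rfl⟩
  obtain ⟨H, hH⟩ : ∃ H : ℝ, H = ∑ m ∈ Ico (w / 400) (w / 200),
    (1 / 2 ^ m) * ((1 / 2) ^ (m / 8) * ((oct m).card : ℝ)) := ⟨_, rfl⟩
  have hsplit : ∑ m ∈ Ico (w / 400) (w / 200), (1 / 2 ^ m) * (2 / κ *
        (avE (2 ^ rhoT c w) (2 ^ (w - rhoT c w)) (fun e =>
          info (tup x (pos e)) (2 ^ m) (primorial (2 ^ m)) (pr m)) + k * w * Real.log 2 +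
        2 ^ u * (2 * (1 / 2) ^ (m / 8) * (oct m).card))) =
      (2 / κ * 2 ^ rhoT c w) * infT c x w +
      (2 / κ * (k * w * Real.log 2)) * G + (2 / κ * (2 ^ u * 2)) * H := by
    rw [← p1, hG, hH, mul_sum, mul_sum, ← sum_add_distrib, ← sum_add_distrib]
    refine sum_congr rfl fun m _ => ?_
    ring
  rw [hsplit]
  have hG1 : G ≤ 2 / 2 ^ (w / 400) := by
    rw [hG]
    exact geo1 (by omega)
  have hG2 : G ≤ 2 * (1 / 2) ^ (3 * u) := by
    refine hG1.trans ?_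
    have e1 : (2 : ℝ) / 2 ^ (w / 400) = 2 * (1 / 2) ^ (w / 400) := by
      rw [one_div, inv_pow]
      ring
    rw [e1]
    exact mul_le_mul_of_nonneg_left (half_pow (by omega)) (by norm_num)
  have hG0 : 0 ≤ G := by rw [hG]; exact sum_nonneg fun _ _ => by positivity
  have hH0 : 0 ≤ H := by rw [hH]; exact sum_nonneg fun _ _ => by positivity
  have hH1 : H ≤ (w / 200 : ℝ) * (1 / 2) ^ (4 * u) := by
    rw [hH]
    have h1 : ∀ m ∈ Ico (w / 400) (w / 200),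
        (1 / 2 ^ m) * ((1 / 2) ^ (m / 8) * ((oct m).card : ℝ)) ≤ ((1 : ℝ) / 2) ^ (4 * u) := by
      intro m hm
      rw [mem_Ico] at hm
      have h2 : ((1 : ℝ) / 2) ^ (m / 8) ≤ (1 / 2) ^ (4 * u) := half_pow (by omega)
      have h3 : (1 / 2 ^ m) * ((oct m).card : ℝ) ≤ 1 := by
        rw [one_div_mul_eq_div, div_le_one (by positivity)]
        exact card_oct m
      calc (1 / 2 ^ m) * ((1 / 2) ^ (m / 8) * ((oct m).card : ℝ)) =
            (1 / 2) ^ (m / 8) * ((1 / 2 ^ m) * ((oct m).card : ℝ)) := by ring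
        _ ≤ (1 / 2) ^ (4 * u) * 1 := mul_le_mul h2 h3 (by positivity) (by positivity)
        _ = _ := mul_one _
    refine (sum_le_sum h1).trans ?_
    rw [sum_const, Nat.card_Ico, nsmul_eq_mul]
    refine mul_le_mul_of_nonneg_right ?_ (by positivity)
    have h4 : ((w / 200 - w / 400 : ℕ) : ℝ) ≤ ((w / 200 : ℕ) : ℝ) := by
      exact_mod_cast Nat.sub_le _ _
    exact h4.trans Nat.cast_div_le
  -- the first part
  have q1 : (2 / κ * 2 ^ rhoT c w) * infT c x w ≤ 80000 * 2 ^ c * infT c x w := by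
    refine mul_le_mul_of_nonneg_right ?_ hinf
    calc 2 / κ * 2 ^ rhoT c w ≤ 80000 / w * (2 ^ c * w) :=
          mul_le_mul hk2 hr2' (by positivity) (by positivity)
      _ = 80000 * 2 ^ c := by field_simp
  have q2 : (2 / κ * (k * w * Real.log 2)) * G ≤ 160000 * k * (1 / 2) ^ (3 * u) := by
    have h1 : 2 / κ * (k * w * Real.log 2) ≤ 80000 * k := by
      calc 2 / κ * (k * w * Real.log 2) ≤ 80000 / w * (k * w * 1) := by
            refine mul_le_mul hk2 ?_ (by positivity) (by positivity)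
            exact mul_le_mul_of_nonneg_left (by linarith) (by positivity)
        _ = 80000 * k := by field_simp
    calc (2 / κ * (k * w * Real.log 2)) * G ≤ 80000 * k * (2 * (1 / 2) ^ (3 * u)) :=
          mul_le_mul h1 hG2 hG0 (by positivity)
      _ = 160000 * k * (1 / 2) ^ (3 * u) := by ring
  have q3 : (2 / κ * (2 ^ u * 2)) * H ≤ 800 * (1 / 2) ^ (3 * u) := by
    have e2 : (2 : ℝ) ^ u * (1 / 2) ^ u = 1 := by
      rw [← mul_pow]
      norm_num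
    have e3 : ((1 : ℝ) / 2) ^ (4 * u) = (1 / 2) ^ u * (1 / 2) ^ (3 * u) := by
      rw [← pow_add]
      congr 1
      ring
    calc (2 / κ * (2 ^ u * 2)) * H ≤ (80000 / w * (2 ^ u * 2)) *
          ((w / 200 : ℝ) * (1 / 2) ^ (4 * u)) :=
          mul_le_mul (mul_le_mul_of_nonneg_right hk2 (by positivity)) hH1 hH0 (by positivity)
      _ = 800 * (2 ^ u * (1 / 2) ^ u) * (1 / 2) ^ (3 * u) := by
          rw [e3]
          field_simp
          norm_num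
      _ = 800 * (1 / 2) ^ (3 * u) := by rw [e2, mul_one]
  have q4 : (160000 * k + 800) * ((1 : ℝ) / 2) ^ (3 * u) ≤ (1 / 2) ^ (w / 10 ^ 5) := by
    have e3 : ((1 : ℝ) / 2) ^ (3 * u) = (1 / 2) ^ (2 * u) * (1 / 2) ^ u := by
      rw [← pow_add]
      congr 1
      ring
    have e4 : (160000 * k + 800 : ℝ) ≤ 2 ^ (2 * u) := by
      have h1 : u < 2 ^ u := Nat.lt_two_pow_self
      have h2 : 2 ^ u ≤ 2 ^ (2 * u) := Nat.pow_le_pow_right (by norm_num) (by omega)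
      have h3 : 160000 * k + 800 ≤ 2 ^ (2 * u) := by omega
      exact_mod_cast h3
    have e5 : (160000 * k + 800) * ((1 : ℝ) / 2) ^ (2 * u) ≤ 1 := by
      have h1 : (2 : ℝ) ^ (2 * u) * (1 / 2) ^ (2 * u) = 1 := by
        rw [← mul_pow]
        norm_num
      exact (mul_le_mul_of_nonneg_right e4 (by positivity)).trans (le_of_eq h1)
    have e6 : ((1 : ℝ) / 2) ^ u ≤ (1 / 2) ^ (w / 10 ^ 5) := half_pow (by omega)
    rw [e3, ← mul_assoc]
    exact (mul_le_of_le_one_left (by positivity) e5).trans e6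
  linarith

end Pool.Agent.H81.GS
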