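import Pool.Agent.H93.GS.Targets
import Pool.Agent.H72.EN.EN
import Pool.Agent.H62.ENM.LG1
import Pool.Agent.H38.EL.BAB

/-!
# Near-constancy of the energy with the soft threshold: the telescope
-/

set_option autoImplicit false

open Finset Pool.Agent.H93 Pool.Agent.H6.N4D Pool.Agent.H93.GS Pool.Agent.H72.EN

namespace Pool.Agent.H81.GS

/-! ## bounds for the energy -/

lemma J_le {th : ℝ} (hth : 0 ≤ th) {lam : ℕ → ℝ} (hl : ∀ m, |lam m| ≤ 1) (N n : ℕ) (g : Ex) :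
    J th lam 1 N n g ≤ 1 := by
  have h1 : ar 1 N n (fun m => 2 * lam m * (g.f m).re - ‖g.f m‖ ^ 2) ≤ 1 := by
    unfold ar
    rcases Nat.eq_zero_or_pos N with h0 | h0
    · subst h0
      simp
    · have hN : (0 : ℝ) < N := by exact_mod_cast h0
      rw [div_le_one hN, Nat.cast_one, mul_one]
      have h2 : ∀ m ∈ (Ioc n (n + N)).filter (fun m => 1 ∣ m),
          2 * lam m * (g.f m).re - ‖g.f m‖ ^ 2 ≤ 1 := by
        intro m _
        have h3 : |(g.f m).re| ≤ ‖g.f m‖ := Complex.abs_re_le_norm _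
        have h4 : lam m * (g.f m).re ≤ ‖g.f m‖ := by
          have h5 := le_abs_self (lam m * (g.f m).re)
          rw [abs_mul] at h5
          have h6 := mul_le_mul (hl m) h3 (abs_nonneg _) zero_le_one
          linarith
        nlinarith [sq_nonneg (‖g.f m‖ - 1)]
      refine (sum_le_card_nsmul _ _ _ h2).trans ?_
      rw [nsmul_eq_mul, mul_one]
      have h7 : ((Ioc n (n + N)).filter (fun m => 1 ∣ m)).card ≤ (Ioc n (n + N)).card :=
        card_filter_le _ _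
      rw [Nat.card_Ioc, Nat.add_sub_cancel_left] at h7
      exact_mod_cast h7
  have h2 : 0 ≤ g.nm := sum_nonneg fun i _ => norm_nonneg _
  have h3 : 0 ≤ 2 * th * g.nm := by positivity
  unfold J
  linarith

lemma En_nonneg {th : ℝ} (hth : 0 ≤ th) {lam : ℕ → ℝ} (hl : ∀ m, |lam m| ≤ 1) (N n : ℕ) :
    0 ≤ En th lam 1 N n := by
  have h1 : J th lam 1 N n ⟨0, fun _ => 0, fun _ => 0⟩ = 0 := by
    unfold J ar Ex.nm Ex.f
    simp
  unfold En
  rw [← h1]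
  exact le_ciSup (f := fun g : Ex => J th lam 1 N n g)
    ⟨1, by rintro x ⟨g, rfl⟩; exact J_le hth hl N n g⟩ _

lemma En_le_one {th : ℝ} (hth : 0 ≤ th) {lam : ℕ → ℝ} (hl : ∀ m, |lam m| ≤ 1) (N n : ℕ) :
    En th lam 1 N n ≤ 1 := by
  unfold En
  have : Nonempty Ex := ⟨⟨0, fun _ => 0, fun _ => 0⟩⟩
  exact ciSup_le fun g => J_le hth hl N n g

lemma log_ge {X : ℕ} (hX : 3 ≤ X) : 1 ≤ Real.log X := by
  have hX3 : (3 : ℝ) ≤ X := by exact_mod_cast hX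
  rw [Real.le_log_iff_exp_le (by linarith)]
  have := Real.exp_one_lt_d9
  linarith

lemma te_bd {th : ℝ} (hth : 0 ≤ th) {lam : ℕ → ℝ} (hl : ∀ m, |lam m| ≤ 1) {X : ℕ} (hX : 3 ≤ X)
    (k : ℕ) : 0 ≤ te th lam X k ∧ te th lam X k ≤ 2 := by
  have hY := log_ge hX
  obtain ⟨h1, h2⟩ := Pool.Agent.H62.ENM.pf_LG1 X (fun n => En th lam 1 (2 ^ k) n)
    (fun n => ⟨En_nonneg hth hl _ n, En_le_one hth hl _ n⟩) (by omega)
  unfold te
  refine ⟨div_nonneg h1 (by linarith), ?_⟩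
  rw [div_le_iff₀ (by linarith)]
  linarith

lemma Lio_abs {lam : ℕ → ℝ} (h : Lio lam) (n : ℕ) : |lam n| ≤ 1 := by
  rcases h.pm n with h | h <;> rw [h] <;> norm_num

lemma te_mul {th : ℝ} {lam : ℕ → ℝ} {X : ℕ} (hX : 3 ≤ X) (k : ℕ) :
    te th lam X k * Real.log X = EB.lg X (fun n => En th lam 1 (2 ^ k) n) := by
  unfold te
  rw [div_mul_cancel₀]
  have := log_ge hX
  positivity

/-! ## the telescope -/

/-- the inequality of one level with given constants -/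
def LevC (th δ c₁ CL : ℝ) (p₀ m₁ : ℕ) : Prop :=
  ∀ (η : ℝ) (A X m : ℕ) (lam : ℕ → ℝ), 0 < η → η ≤ 1 → 2 ≤ A → 3 ≤ X → m₁ ≤ m → Lio lam →
    EB.lg X (fun n => En th lam 1 (2 ^ (m - m / 500)) n) -
        EB.lg X (fun n => En th lam 1 (2 ^ (A * m - m / 100)) n) ≤
      (1 + η) * (EB.lg X (fun n => En th lam 1 (2 ^ m) n) -
        EB.lg X (fun n => En th lam 1 (2 ^ (A * m)) n)) +
      CL / η * (H72.EN.bA lam X m + bF lam X m (th / 2) δ c₁ + gm th lam X p₀ m +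
        gmq th lam X p₀ m + (1 / 2) ^ (m / 2000) * Real.log X + A * m + 1)

/-- monotonicity with a given constant -/
def MonC (th CM : ℝ) : Prop :=
  ∀ (X k l q : ℕ) (lam : ℕ → ℝ), 3 ≤ X → (∀ n, |lam n| ≤ 1) → k ≤ l → 1 ≤ q → q ≤ 2 ^ k →
    EB.lg X (fun n => En th lam q (2 ^ l) n) ≤
      EB.lg X (fun n => En th lam q (2 ^ k) n) + CM * (l + 1)

/-- summability of the defects with a given constant -/
def GmC (th CG : ℝ) (p₀ : ℕ) : Prop :=
  ∀ (X m₀ me : ℕ) (lam : ℕ → ℝ), 3 ≤ X → (∀ n, |lam n| ≤ 1) → 1000 * (p₀ + 1) ≤ m₀ →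
    m₀ ≤ me →
    ∑ m ∈ Icc m₀ me, 1 / (m : ℝ) * (gm th lam X p₀ m + gmq th lam X p₀ m) ≤
      CG / m₀ * Real.log X + CG * (me + 1) * (1 + Real.log me)

lemma te_mono {th CM : ℝ} (hmn : MonC th CM) {lam : ℕ → ℝ} (hl : ∀ m, |lam m| ≤ 1) {X : ℕ}
    (hX : 3 ≤ X) {k l : ℕ} (hkl : k ≤ l) :
    te th lam X l ≤ te th lam X k + CM * (l + 1) / Real.log X := by
  have h1 := hmn X k l 1 lam hX hl hkl le_rfl Nat.one_le_two_pow
  have hY : 0 < Real.log X := by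
    have := log_ge hX
    linarith
  unfold te
  rw [← add_div]
  exact div_le_div_of_nonneg_right h1 hY.le

lemma bF_nonneg (lam : ℕ → ℝ) (X m : ℕ) (th' δ c : ℝ) : 0 ≤ bF lam X m th' δ c := by
  classical
  unfold bF EB.lg
  refine sum_nonneg fun n _ => div_nonneg (sum_nonneg fun q _ => mul_nonneg (by positivity) ?_)
    (Nat.cast_nonneg _)
  unfold EB.ind
  split_ifs <;> norm_num

/-- the sum of the errors of the levels -/
lemma sum_r {lam : ℕ → ℝ} {th CG : ℝ} {p₀ : ℕ} (hGSM : T_GSM) (hgm : GmC th CG p₀)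
    (hl : ∀ m, |lam m| ≤ 1) (X k₀ me A : ℕ) (D : ℝ) (hX : 3 ≤ X) (h1 : 1 ≤ k₀)
    (hp : 1000 * (p₀ + 1) ≤ k₀) (hk : k₀ ≤ me) (hD : 0 ≤ D) :
    ∑ m ∈ Icc k₀ me, 1 / (m : ℝ) * (D * ((gm th lam X p₀ m + gmq th lam X p₀ m) / Real.log X +
      (1 / 2) ^ (m / 2000) + (A * m + 1) / Real.log X)) ≤
      D * (CG / k₀ + 4000 * (1 / 2) ^ (k₀ / 2000) +
        (CG * (me + 1) * (1 + Real.log me) + me * (A + 1)) / Real.log X) := by
  have hY : 0 < Real.log X := by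
    have := log_ge hX
    linarith
  obtain ⟨Y, hYd⟩ : ∃ Y : ℝ, Y = Real.log X := ⟨_, rfl⟩
  have hG := hgm X k₀ me lam hX hl hp hk
  rw [← hYd] at hY hG ⊢
  have h2 : ∀ m ∈ Icc k₀ me, 1 / (m : ℝ) * (D * ((gm th lam X p₀ m + gmq th lam X p₀ m) / Y +
      (1 / 2) ^ (m / 2000) + (A * m + 1) / Y)) ≤
      D / Y * (1 / (m : ℝ) * (gm th lam X p₀ m + gmq th lam X p₀ m)) +
        (D * (1 / 2) ^ (m / 2000) + D * ((A + 1) / Y)) := by
    intro m hm
    rw [mem_Icc] at hm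
    have hm1 : (1 : ℝ) ≤ m := by exact_mod_cast h1.trans hm.1
    have hm0 : (0 : ℝ) < m := by linarith
    have hi : 1 / (m : ℝ) ≤ 1 := by
      rw [div_le_one hm0]; exact hm1
    have hA : (0 : ℝ) ≤ A := Nat.cast_nonneg _
    obtain ⟨g, hg⟩ : ∃ g : ℝ, g = gm th lam X p₀ m + gmq th lam X p₀ m := ⟨_, rfl⟩
    rw [← hg]
    have e1 : 1 / (m : ℝ) * (D * (g / Y + (1 / 2) ^ (m / 2000) + (A * m + 1) / Y)) =
        D / Y * (1 / (m : ℝ) * g) + (1 / (m : ℝ) * (D * (1 / 2) ^ (m / 2000)) +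
          D * ((A + 1 / m) / Y)) := by
      field_simp
      ring
    rw [e1]
    have e2 : 1 / (m : ℝ) * (D * (1 / 2) ^ (m / 2000)) ≤ D * (1 / 2) ^ (m / 2000) :=
      mul_le_of_le_one_left (by positivity) hi
    have e4 : D * ((A + 1 / (m : ℝ)) / Y) ≤ D * ((A + 1) / Y) := by
      gcongr
    linarith
  refine (sum_le_sum h2).trans ?_
  rw [sum_add_distrib, sum_add_distrib, ← mul_sum, ← mul_sum, sum_const, nsmul_eq_mul]
  have h3 := mul_le_mul_of_nonneg_left (hGSM k₀ me) hD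
  have h4 : ((Icc k₀ me).card : ℝ) ≤ me := by
    rw [Nat.card_Icc]
    exact_mod_cast (by omega : me + 1 - k₀ ≤ me)
  have h5 : 0 ≤ D * (((A : ℝ) + 1) / Y) := by positivity
  have h6 : ((Icc k₀ me).card : ℝ) * (D * ((A + 1) / Y)) ≤
      me * (D * ((A + 1) / Y)) := mul_le_mul_of_nonneg_right h4 h5
  have h8 := mul_le_mul_of_nonneg_left hG (div_nonneg hD hY.le)
  have h7 : D * (CG / k₀ + 4000 * (1 / 2) ^ (k₀ / 2000) +
        (CG * (me + 1) * (1 + Real.log me) + me * (A + 1)) / Y) =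
      D / Y * (CG / k₀ * Y + CG * (me + 1) * (1 + Real.log me)) +
        (D * (4000 * (1 / 2) ^ (k₀ / 2000)) + me * (D * ((A + 1) / Y))) := by
    field_simp
    ring
  linarith

/-- the telescope for the energies -/
lemma coreT (hTEL : T_TEL) (hHAR : T_HAR) (hGSM : T_GSM) {th δ c₁ CL CM CG : ℝ} {p₀ m₁ : ℕ}
    (hth : 0 < th) (hCL : 0 < CL) (hCM : 0 < CM)
    (hlev : LevC th δ c₁ CL p₀ m₁) (hmn : MonC th CM) (hgm : GmC th CG p₀)
    (lam : ℕ → ℝ) (X A B k₀ k : ℕ) (η E : ℝ) (hX : 3 ≤ X) (hlam : Lio lam) (hA : 2 ≤ A)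
    (hB : 2 ≤ B) (h0 : 0 < η) (h1 : η ≤ 1) (hk1 : 3500 ≤ k₀) (hk2 : 100 * A ≤ k₀)
    (hk3 : m₁ ≤ k₀) (hk5 : 1000 * (p₀ + 1) ≤ k₀) (hk4 : k₀ ≤ k)
    (hE : ∀ (K : ℕ) (c : ℕ → ℕ), Chn B k₀ (2 * k) K c →
      ∑ i ∈ range K, (bA lam X (c i) + bF lam X (c i) (th / 2) δ c₁) ≤ E * Real.log X) :
    te th lam X k₀ - te th lam X k ≤ 48 / A + 1200 * η * A + 1200 * B * (CL / η * E) +
      600 * (CL / η * (CG / k₀ + 4000 * (1 / 2) ^ (k₀ / 2000) +
        (CG * ((2 * k : ℕ) + 1) * (1 + Real.log (2 * k : ℕ)) + (2 * k : ℕ) * (A + 1)) /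
          Real.log X)) +
      1800 * (CM * ((A * (2 * k) : ℕ) + 1) / Real.log X) *
        (2 + Real.log (2 * k : ℕ)) + CM * ((A * (2 * k) : ℕ) + 1) / Real.log X := by
  have hl1 := Lio_abs hlam
  have hY : 0 < Real.log X := by
    have := log_ge hX
    linarith
  set Y := Real.log X with hYd
  set D := CL / η with hDd
  have hD : 0 < D := div_pos hCL h0
  set me := 2 * k with hme
  set δ' : ℝ := CM * ((A * me : ℕ) + 1) / Y with hδd
  have hδ : 0 ≤ δ' := by positivity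
  -- monotonicity
  have hmono : ∀ i j, i ≤ j → j ≤ A * me → te th lam X j ≤ te th lam X i + δ' := by
    intro i j hij hj
    refine (te_mono hmn hl1 hX hij).trans ?_
    have hj' : (j : ℝ) ≤ (A * me : ℕ) := by exact_mod_cast hj
    rw [hδd, ← hYd]
    gcongr
  have hme1 : 1 ≤ me := by omega
  have hkk : k ≤ me - me / 500 := by omega
  have hT := hTEL A B k₀ me η 0 (δ' / 2) (D / 2 * E) (fun k => te th lam X k / 2) (fun _ => 0)
    (fun m => D / 2 * ((bA lam X m + bF lam X m (th / 2) δ c₁) / Y))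
    (fun m => D / 2 * ((gm th lam X p₀ m + gmq th lam X p₀ m) / Y + (1 / 2) ^ (m / 2000) +
      (A * m + 1) / Y))
    hA hB hk1 hk2 (by omega) h0.le h1 le_rfl (by positivity)
    (fun k => by
      obtain ⟨a1, a2⟩ := te_bd hth.le hl1 hX k
      exact ⟨by linarith, by linarith⟩)
    (fun k => ⟨le_rfl, by norm_num⟩) (fun i j hij hj => by
      have := hmono i j hij hj
      exact ⟨by linarith, by linarith⟩)
    (fun m => by
      have h2 := (Pool.Agent.H38.EL.pf_BAB lam X m hl1).1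
      have h3 := bF_nonneg lam X m (th / 2) δ c₁
      positivity)
    (fun K c hc => by
      have h2 := hE K c hc
      rw [← mul_sum]
      refine mul_le_mul_of_nonneg_left ?_ (by positivity)
      rw [← sum_div, div_le_iff₀ hY]
      exact h2)
    (fun m hm => by
      rw [mem_Icc] at hm
      have b1 := hlev η A X m lam h0 h1 hA hX (by omega) hlam
      rw [← hYd, ← hDd, ← te_mul hX, ← te_mul hX, ← te_mul hX, ← te_mul hX, ← hYd] at b1
      obtain ⟨g, hg⟩ : ∃ g : ℝ, g = gm th lam X p₀ m := ⟨_, rfl⟩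
      obtain ⟨g', hg'⟩ : ∃ g : ℝ, g = gmq th lam X p₀ m := ⟨_, rfl⟩
      obtain ⟨x, hx⟩ : ∃ g : ℝ, g = bA lam X m := ⟨_, rfl⟩
      obtain ⟨x', hx'⟩ : ∃ g : ℝ, g = bF lam X m (th / 2) δ c₁ := ⟨_, rfl⟩
      obtain ⟨z, hz⟩ : ∃ z : ℝ, z = (1 / 2) ^ (m / 2000) := ⟨_, rfl⟩
      rw [← hg, ← hg', ← hx, ← hx', ← hz] at b1
      rw [← hg, ← hg', ← hx, ← hx', ← hz]
      have b5 := div_le_div_of_nonneg_right b1 (by positivity : 0 ≤ 2 * Y)
      have e1 : (te th lam X (m - m / 500) * Y - te th lam X (A * m - m / 100) * Y) / (2 * Y) =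
          te th lam X (m - m / 500) / 2 - te th lam X (A * m - m / 100) / 2 := by
        field_simp
      have e2 : ((1 + η) * (te th lam X m * Y - te th lam X (A * m) * Y) +
          D * (x + x' + g + g' + z * Y + A * m + 1)) / (2 * Y) =
          (1 + η) * (te th lam X m / 2 - te th lam X (A * m) / 2) +
          D / 2 * ((x + x') / Y) + 0 * (0 - 0) +
          D / 2 * ((g + g') / Y + z + (A * m + 1) / Y) := by
        field_simp
        ring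
      rw [e1, e2] at b5
      exact b5)
  have hr := sum_r (lam := lam) hGSM hgm hl1 X k₀ me A (D / 2) hX (by omega) hk5 (by omega)
    (by positivity)
  rw [← hYd] at hr
  obtain ⟨hh0, hh1⟩ := hHAR k₀ me (by omega) hme1
  have hlast := hmono k (me - me / 500) hkk (by
    have : me ≤ A * me := Nat.le_mul_of_pos_left _ (by omega)
    omega)
  have hh2 : 1800 * δ' * (1 + ∑ m ∈ Icc k₀ me, 1 / (m : ℝ)) ≤
      1800 * δ' * (2 + Real.log me) := by
    refine mul_le_mul_of_nonneg_left ?_ (by positivity)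
    linarith
  have hT' : te th lam X k₀ / 2 - te th lam X (me - me / 500) / 2 ≤ 24 / A + 600 * η * A +
      1200 * B * (D / 2 * E) + 18000 * 0 / k₀ +
      600 * ∑ m ∈ Icc k₀ me, 1 / (m : ℝ) * (D / 2 *
        ((gm th lam X p₀ m + gmq th lam X p₀ m) / Y + (1 / 2) ^ (m / 2000) +
      (A * m + 1) / Y)) +
      600 * (3 + 0) * (δ' / 2) * (1 + ∑ m ∈ Icc k₀ me, 1 / (m : ℝ)) := hT
  have e3 : (18000 : ℝ) * 0 / k₀ = 0 := by simp
  rw [e3] at hT'
  have e4 : (48 : ℝ) / A = 2 * (24 / A) := by ring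
  have e5 : 1200 * (B : ℝ) * (D * E) = 2 * (1200 * B * (D / 2 * E)) := by ring
  rw [e4, e5]
  linarith

/-- near-constancy from small sums over sparse sequences of levels -/
lemma near (hTEL : T_TEL) (hHAR : T_HAR) (hGSM : T_GSM) (hLIM : T_LIM) {th δ c₁ CL CM CG : ℝ}
    {p₀ m₁ : ℕ} (hth : 0 < th) (hCL : 0 < CL) (hCM : 0 < CM) (hCG : 0 < CG)
    (hlev : LevC th δ c₁ CL p₀ m₁) (hmn : MonC th CM) (hgm : GmC th CG p₀) (B : ℕ) (hB : 2 ≤ B)
    (ε : ℝ) (hε : 0 < ε) : ∃ (ε₁ : ℝ) (k₁ X₁ : ℕ), 0 < ε₁ ∧ 3 ≤ X₁ ∧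
      ∀ (X k₀ k : ℕ) (lam : ℕ → ℝ), X₁ ≤ X → Lio lam → k₁ ≤ k₀ → k₀ ≤ k →
        (k : ℝ) ≤ 2 * Real.log X ^ (24 / 25 : ℝ) →
        (∀ (K : ℕ) (c : ℕ → ℕ), Chn B k₀ (2 * k) K c →
          ∑ i ∈ range K, (bA lam X (c i) + bF lam X (c i) (th / 2) δ c₁) ≤
            ε₁ * Real.log X) →
        te th lam X k₀ - ε ≤ te th lam X k := by
  have hBr : (2 : ℝ) ≤ B := by exact_mod_cast hB
  obtain ⟨A, hA2, hAε⟩ : ∃ A : ℕ, 2 ≤ A ∧ 480 / ε ≤ A :=
    ⟨⌈480 / ε⌉₊ + 2, by omega, by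
      have := Nat.le_ceil (480 / ε)
      push_cast
      linarith⟩
  have hA0 : (0 : ℝ) < A := by
    have : (2 : ℝ) ≤ A := by exact_mod_cast hA2
    linarith
  obtain ⟨η, hη0, hη1, hηε⟩ : ∃ η : ℝ, 0 < η ∧ η ≤ 1 ∧ 1200 * η * A ≤ ε / 10 := by
    refine ⟨min 1 (ε / (12000 * A)), lt_min one_pos (by positivity), min_le_left _ _, ?_⟩
    have h1 : min 1 (ε / (12000 * A)) ≤ ε / (12000 * A) := min_le_right _ _
    have h2 : 1200 * min 1 (ε / (12000 * A)) * A ≤ 1200 * (ε / (12000 * A)) * A := by gcongr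
    refine h2.trans (le_of_eq ?_)
    field_simp
    norm_num
  obtain ⟨D, hDd⟩ : ∃ D : ℝ, D = CL / η := ⟨_, rfl⟩
  have hD : 0 < D := by rw [hDd]; positivity
  obtain ⟨y, hy1, hy2, hy3⟩ : ∃ y : ℕ, 1 ≤ y ∧ 6000 * D * CG / ε ≤ y ∧
      24000000 * D / ε ≤ y :=
    ⟨⌈6000 * D * CG / ε⌉₊ + ⌈24000000 * D / ε⌉₊ + 1, by omega, by
      have := Nat.le_ceil (6000 * D * CG / ε)
      push_cast
      have h2 : (0 : ℝ) ≤ (⌈24000000 * D / ε⌉₊ : ℝ) := Nat.cast_nonneg _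
      linarith, by
      have := Nat.le_ceil (24000000 * D / ε)
      push_cast
      have h2 : (0 : ℝ) ≤ (⌈6000 * D * CG / ε⌉₊ : ℝ) := Nat.cast_nonneg _
      linarith⟩
  obtain ⟨G, hGd⟩ : ∃ G : ℝ, G = 600 * D * (6 * CG + 2 * (A + 1)) +
    (5400 + 1) * (2 * A * CM) := ⟨_, rfl⟩
  have hG : 0 < G := by rw [hGd]; positivity
  obtain ⟨X₀, hX₀, hlim⟩ := hLIM (ε / (10 * G)) (by positivity)
  obtain ⟨V, v1, v2, v3, v4, v5⟩ : ∃ V : ℕ, 2000 * y ≤ V ∧ 3500 ≤ V ∧ 100 * A ≤ V ∧ m₁ ≤ V ∧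
      1000 * (p₀ + 1) ≤ V :=
    ⟨max (2000 * y) (max 3500 (max (100 * A) (max m₁ (1000 * (p₀ + 1))))), le_max_left _ _,
      (le_max_left _ _).trans (le_max_right _ _),
      ((le_max_left _ _).trans (le_max_right _ _)).trans (le_max_right _ _),
      (((le_max_left _ _).trans (le_max_right _ _)).trans (le_max_right _ _)).trans
        (le_max_right _ _),
      (((le_max_right _ _).trans (le_max_right _ _)).trans (le_max_right _ _)).trans
        (le_max_right _ _)⟩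
  refine ⟨ε / (12000 * B * D), V, X₀, by positivity, hX₀, ?_⟩
  intro X k₀ k lam hX hlam hk₀ hk hkX hE
  have hX3 : 3 ≤ X := hX₀.trans hX
  have hY1 := log_ge hX3
  have hcore := coreT hTEL hHAR hGSM hth hCL hCM hlev hmn hgm lam X A B k₀ k η
    (ε / (12000 * B * D)) hX3 hlam hA2 hB hη0 hη1 (v2.trans hk₀) (v3.trans hk₀) (v4.trans hk₀)
    (v5.trans hk₀) hk hE
  rw [← hDd] at hcore
  have hΦ := hlim X k hX hkX
  obtain ⟨Y, hYd⟩ : ∃ Y : ℝ, Y = Real.log X := ⟨_, rfl⟩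
  rw [← hYd] at hΦ hcore hY1
  have hY : 0 < Y := by linarith
  have hk1 : 1 ≤ k := by omega
  obtain ⟨Φ, hΦd⟩ : ∃ Φ : ℝ, Φ = ((k : ℝ) + 1) * (1 + Real.log (k + 1)) := ⟨_, rfl⟩
  rw [← hΦd] at hΦ
  have hk0r : (0 : ℝ) ≤ k := Nat.cast_nonneg _
  have hlog0 : 0 ≤ Real.log ((k : ℝ) + 1) := Real.log_nonneg (by linarith)
  have hΦk : (k : ℝ) + 1 ≤ Φ := by
    rw [hΦd]
    nlinarith
  have hΦ0 : 0 < Φ := by linarith
  -- the single terms
  have t1 : 48 / (A : ℝ) ≤ ε / 10 := by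
    rw [div_le_iff₀ hA0]
    rw [div_le_iff₀ hε] at hAε
    linarith
  have t3 : 1200 * B * (D * (ε / (12000 * B * D))) = ε / 10 := by
    field_simp
    norm_num
  have t4 : 600 * (D * (CG / (k₀ : ℝ))) ≤ ε / 10 := by
    have hk₀0 : (0 : ℝ) < k₀ := by
      have : 0 < k₀ := by omega
      exact_mod_cast this
    have h1 : (y : ℝ) ≤ k₀ := by
      have : y ≤ k₀ := by omega
      exact_mod_cast this
    have h2 : 600 * (D * (CG / (k₀ : ℝ))) = 600 * D * CG / k₀ := by ring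
    rw [h2, div_le_iff₀ hk₀0]
    rw [div_le_iff₀ hε] at hy2
    nlinarith
  have t5 : 600 * (D * (4000 * (1 / 2) ^ (k₀ / 2000))) ≤ ε / 10 := by
    have hy0 : (0 : ℝ) < y := by exact_mod_cast hy1
    have h1 : ((1 : ℝ) / 2) ^ (k₀ / 2000) ≤ 1 / y := by
      apply half_pow_le hy0
      have : y ≤ k₀ / 2000 := by omega
      exact_mod_cast this
    have h2 : 600 * (D * (4000 * (1 / 2) ^ (k₀ / 2000))) ≤ 600 * (D * (4000 * (1 / y))) := by
      gcongr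
    refine h2.trans ?_
    have h3 : 600 * (D * (4000 * (1 / (y : ℝ)))) = 2400000 * D / y := by ring
    rw [h3, div_le_iff₀ hy0]
    rw [div_le_iff₀ hε] at hy3
    linarith
  have hGΦ : G * (Φ / Y) ≤ ε / 10 := by
    have h1 : Φ / Y ≤ ε / (10 * G) := by
      rw [div_le_iff₀ hY]; exact hΦ
    have h2 := mul_le_mul_of_nonneg_left h1 hG.le
    refine h2.trans (le_of_eq ?_)
    field_simp
  have hAk : ((A * (2 * k) : ℕ) : ℝ) + 1 ≤ 2 * A * (k + 1) := by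
    push_cast
    have : (2 : ℝ) ≤ A := by exact_mod_cast hA2
    linarith
  have hl2k : 2 + Real.log ((2 * k : ℕ) : ℝ) ≤ 3 * (1 + Real.log (k + 1)) := by
    have hk' : (0 : ℝ) < k := by exact_mod_cast hk1
    push_cast
    rw [Real.log_mul (by norm_num) hk'.ne']
    have h1 : Real.log (k : ℝ) ≤ Real.log (k + 1) := Real.log_le_log hk' (by linarith)
    have h2 := Real.log_two_lt_d9
    linarith
  have hl2k0 : 0 ≤ 2 + Real.log ((2 * k : ℕ) : ℝ) := by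
    have : 0 ≤ Real.log ((2 * k : ℕ) : ℝ) := Real.log_natCast_nonneg _
    linarith
  have t6 : 600 * (D * ((CG * ((2 * k : ℕ) + 1) * (1 + Real.log (2 * k : ℕ)) +
      (2 * k : ℕ) * (A + 1)) / Y)) ≤ 600 * D * (6 * CG + 2 * (A + 1)) * (Φ / Y) := by
    have h1 : ((2 * k : ℕ) : ℝ) ≤ 2 * Φ := by
      push_cast
      linarith
    have h2 : CG * (((2 * k : ℕ) : ℝ) + 1) * (1 + Real.log ((2 * k : ℕ) : ℝ)) ≤
        CG * (2 * ((k : ℝ) + 1)) * (3 * (1 + Real.log (k + 1))) := by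
      have h3 : ((2 * k : ℕ) : ℝ) + 1 ≤ 2 * ((k : ℝ) + 1) := by
        push_cast
        linarith
      have h4 : 0 ≤ 1 + Real.log ((2 * k : ℕ) : ℝ) := by
        have : 0 ≤ Real.log ((2 * k : ℕ) : ℝ) := Real.log_natCast_nonneg _
        linarith
      have h5 : 1 + Real.log ((2 * k : ℕ) : ℝ) ≤ 3 * (1 + Real.log (k + 1)) := by linarith
      gcongr
    have h6 : CG * (2 * ((k : ℝ) + 1)) * (3 * (1 + Real.log (k + 1))) = 6 * CG * Φ := by
      rw [hΦd]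
      ring
    have h7 : ((2 * k : ℕ) : ℝ) * ((A : ℝ) + 1) ≤ 2 * Φ * (A + 1) := by gcongr
    have h8 : CG * (((2 * k : ℕ) : ℝ) + 1) * (1 + Real.log ((2 * k : ℕ) : ℝ)) +
        ((2 * k : ℕ) : ℝ) * ((A : ℝ) + 1) ≤ (6 * CG + 2 * (A + 1)) * Φ := by linarith
    have h9 : 600 * (D * ((CG * ((2 * k : ℕ) + 1) * (1 + Real.log (2 * k : ℕ)) +
      (2 * k : ℕ) * (A + 1)) / Y)) ≤ 600 * (D * ((6 * CG + 2 * (A + 1)) * Φ / Y)) := by
      gcongr
    refine h9.trans (le_of_eq ?_)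
    ring
  have t7 : 1800 * (CM * ((A * (2 * k) : ℕ) + 1) / Y) *
      (2 + Real.log (2 * k : ℕ)) ≤ 5400 * (2 * A * CM) * (Φ / Y) := by
    have h1 : 1800 * (CM * ((A * (2 * k) : ℕ) + 1) / Y) *
        (2 + Real.log (2 * k : ℕ)) ≤ 1800 * (CM * (2 * A * (k + 1)) / Y) *
        (3 * (1 + Real.log (k + 1))) := by gcongr
    refine h1.trans (le_of_eq ?_)
    rw [hΦd]
    ring
  have t8 : CM * ((A * (2 * k) : ℕ) + 1) / Y ≤ (2 * A * CM) * (Φ / Y) := by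
    have h1 : CM * ((A * (2 * k) : ℕ) + 1) / Y ≤ CM * (2 * A * Φ) / Y := by
      gcongr
      exact hAk.trans (by gcongr)
    refine h1.trans (le_of_eq ?_)
    ring
  have h5X : 600 * (D * (CG / k₀ + 4000 * (1 / 2) ^ (k₀ / 2000) +
        (CG * ((2 * k : ℕ) + 1) * (1 + Real.log (2 * k : ℕ)) + (2 * k : ℕ) * (A + 1)) / Y)) =
      600 * (D * (CG / k₀)) + 600 * (D * (4000 * (1 / 2) ^ (k₀ / 2000))) +
        600 * (D * ((CG * ((2 * k : ℕ) + 1) * (1 + Real.log (2 * k : ℕ)) +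
          (2 * k : ℕ) * (A + 1)) / Y)) := by ring
  have hGX : G * (Φ / Y) = 600 * D * (6 * CG + 2 * (A + 1)) * (Φ / Y) +
      5400 * (2 * A * CM) * (Φ / Y) + (2 * A * CM) * (Φ / Y) := by
    rw [hGd]
    ring
  linarith

end Pool.Agent.H81.GS
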