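import Pool.Agent.H22.GS.Targets
import Pool.Agent.H81.ES.LVBF

/-!
# One level, tests (B), with a threshold
-/

set_option autoImplicit false

namespace Pool.Agent.H81.GS

open Finset Pool.Agent.H18.MR Pool.Agent.H93.DE Pool.Agent.H6.N4D Pool.Agent.H93.ES
open Pool.Agent.H70.ES Pool.Agent.H81.ES Pool.Agent.H22.GS

attribute [local irreducible] rhoT

/-- change of the frequency, general net -/
lemma wm_rndQ {q r w Q : ℕ} {a b δ : ℝ} {z : ℤ} (f : ℕ → ℝ) (hf : ∀ t, |f t| ≤ 1) (hq : 0 < q)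
    (hqw : q ≤ 2 ^ w) (hQ : 0 < Q) (h : a = z + b + δ) (h0 : 0 ≤ δ) (h1 : δ ≤ 1 / (Q * 2 ^ w)) :
    ‖wm f w (kB q r a)‖ ≤ ‖wm f w (kB q r b)‖ + 14 / Q := by
  have h2w : (0 : ℝ) < 2 ^ w := by positivity
  have hQ0 : (0 : ℝ) < Q := by exact_mod_cast hQ
  have e1 : wm f w (kB q r a) - wm f w (kB q r b) =
      (∑ t ∈ range (2 ^ w), (f t : ℂ) * (kB q r b t * (ee (-(δ * t)) - 1))) / 2 ^ w := by
    unfold wm
    rw [← sub_div, ← sum_sub_distrib]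
    congr 1
    refine sum_congr rfl fun t _ => ?_
    rw [kB_rnd h t]
    ring
  have e2 : ‖wm f w (kB q r a) - wm f w (kB q r b)‖ ≤ 14 / Q := by
    rw [e1, norm_div, norm_pow, Complex.norm_ofNat, div_le_iff₀ h2w]
    refine (norm_sum_le _ _).trans ?_
    have e3 : ∀ t ∈ range (2 ^ w), ‖(f t : ℂ) * (kB q r b t * (ee (-(δ * t)) - 1))‖ ≤
        7 / Q * ‖kB q r b t‖ := by
      intro t ht
      rw [mem_range] at ht
      rw [norm_mul, norm_mul, Complex.norm_real, Real.norm_eq_abs]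
      have e4 := norm_ee_sub_one_le (-(δ * t))
      rw [abs_neg, abs_of_nonneg (by positivity)] at e4
      have ht' : (t : ℝ) ≤ 2 ^ w := by exact_mod_cast ht.le
      have e5 : δ * t ≤ 1 / Q := by
        calc δ * t ≤ 1 / (Q * 2 ^ w) * 2 ^ w :=
              mul_le_mul h1 ht' (by positivity) (by positivity)
          _ = 1 / Q := by field_simp
      have e6 : ‖ee (-(δ * t)) - 1‖ ≤ 7 / Q := by
        have := Real.pi_lt_d2
        have hp := Real.pi_pos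
        have e7 : 2 * Real.pi * (δ * t) ≤ 7 * (1 / Q) :=
          mul_le_mul (by linarith) e5 (by positivity) (by norm_num)
        have e8 : (7 : ℝ) * (1 / Q) = 7 / Q := by ring
        linarith
      have e8 := norm_nonneg (kB q r b t)
      calc |f t| * (‖kB q r b t‖ * ‖ee (-(δ * t)) - 1‖) ≤ 1 * (‖kB q r b t‖ * (7 / Q)) :=
            mul_le_mul (hf t) (mul_le_mul_of_nonneg_left e6 e8) (by positivity) (by norm_num)
        _ = 7 / Q * ‖kB q r b t‖ := by ring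
    refine (sum_le_sum e3).trans ?_
    rw [← mul_sum]
    have e9 := sum_rng hq r b (2 ^ w)
    have e10 : (q : ℝ) ≤ 2 ^ w := by exact_mod_cast hqw
    push_cast at e9
    calc 7 / (Q : ℝ) * ∑ t ∈ range (2 ^ w), ‖kB q r b t‖ ≤ 7 / Q * (2 * 2 ^ w) := by
          refine mul_le_mul_of_nonneg_left ?_ (by positivity)
          linarith
      _ = 14 / Q * 2 ^ w := by ring
  have e11 := norm_add_le (wm f w (kB q r a) - wm f w (kB q r b)) (wm f w (kB q r b))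
  rw [sub_add_cancel] at e11
  linarith

/-- far frequencies -/
lemma far_rndT {k q w : ℕ} {S S' : Fin k → ℝ} {C₁ a b δ : ℝ} {z : ℤ}
    (hS : ∀ i, nd (S i - S' i) ≤ 1 / 2 ^ w) (h : a = z + b + δ) (h0 : 0 ≤ δ)
    (h1 : δ ≤ 1 / 2 ^ w) (hF : FarT q w S (C₁ + 3) a) : FarT q w S' C₁ b := by
  intro i c
  have h2 := hF i c
  have e1 : a - S i - (c : ℝ) / q = (b - S' i - (c : ℝ) / q) + (-(S i - S' i) + δ) + (z : ℤ) := by
    rw [h]
    ring
  have e2 : nd (a - S i - (c : ℝ) / q) ≤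
      nd (b - S' i - (c : ℝ) / q) + (nd (S i - S' i) + nd δ) := by
    rw [e1, nd_add_int]
    refine (nd_add_le _ _).trans ?_
    have := nd_add_le (-(S i - S' i)) δ
    rw [nd_neg] at this
    linarith
  have e3 : nd δ ≤ 1 / 2 ^ w := (nd_le_abs δ).trans (by rw [abs_of_nonneg h0]; exact h1)
  have e4 := hS i
  have e5 : (C₁ + 3) / 2 ^ w = C₁ / 2 ^ w + 3 * (1 / 2 ^ w) := by ring
  have e6 : (0 : ℝ) < 1 / 2 ^ w := by positivity
  linarith

lemma cov_rndT {k w : ℕ} {f : ℕ → ℝ} {S S' : Fin k → ℝ} {C₀ τ : ℝ}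
    (hS : ∀ i, nd (S i - S' i) ≤ 1 / 2 ^ w) (hC : CovT f w S C₀ τ) :
    CovT f w S' (C₀ + 1) τ := by
  intro a ha
  obtain ⟨i, hi⟩ := hC a ha
  refine ⟨i, ?_⟩
  have e1 : a - S' i = (a - S i) + (S i - S' i) := by ring
  have e2 := nd_add_le (a - S i) (S i - S' i)
  rw [← e1] at e2
  have e3 := hS i
  have e4 : (C₀ + 1) / 2 ^ w = C₀ / 2 ^ w + 1 / 2 ^ w := by ring
  linarith

/-- the frequencies of the net -/
noncomputable def betQ (Q w j : ℕ) : ℝ := (j : ℝ) / ((Q * 2 ^ w : ℕ) : ℝ)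

/-- the decoded label -/
noncomputable def decT {k : ℕ} (w : ℕ) (a : Fin ((2 ^ w) ^ k)) (i : Fin k) : ℝ :=
  ((finFunctionFinEquiv.symm a i : ℕ) : ℝ) / 2 ^ w

/-- the test -/
noncomputable def XT {k : ℕ} (c Q : ℕ) (th C₁ : ℝ) (w m : ℕ)
    (e : Fin (2 ^ rhoT c w) → Fin (2 ^ (w - rhoT c w))) (q : ℕ)
    (W : Fin (2 ^ m) → Fin (2 ^ rhoT c w) → Bool) (S : Fin k → ℝ) (r : ℕ) : ℝ :=
  Pool.Agent.H93.EB.ind (∃ j < Q * 2 ^ w, FarT q w S C₁ (betQ Q w j) ∧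
    985 / 1000 * th ≤ ‖smpW m (kB q r (betQ Q w j)) e (2 ^ rhoT c w) W‖)

/-- the mean of the samples -/
noncomputable def MT (c : ℕ) (f : ℕ → ℝ) (w m q r : ℕ) (β : ℝ) : ℂ :=
  (∑ t ∈ range (2 ^ w + 2 ^ m),
    ((f t * wt m (2 ^ rhoT c w * 2 ^ (w - rhoT c w)) t : ℝ) : ℂ) * kB q r β t) / 2 ^ w

lemma rhoT_pow (c w : ℕ) (hw : 1 ≤ w) :
    2 ^ c * w ≤ 2 * 2 ^ rhoT c w ∧ 2 ^ rhoT c w ≤ 2 ^ c * w := by
  unfold rhoT
  have h1 : w < 2 ^ (Nat.log 2 w + 1) := Nat.lt_pow_succ_log_self (by norm_num) _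
  have h2 : 2 ^ Nat.log 2 w ≤ w := Nat.pow_log_le_self 2 (by omega)
  have h3 : 2 ^ (Nat.log 2 w + c) = 2 ^ c * 2 ^ Nat.log 2 w := by rw [pow_add, mul_comm]
  rw [h3]
  refine ⟨?_, Nat.mul_le_mul_left _ h2⟩
  calc 2 ^ c * w ≤ 2 ^ c * 2 ^ (Nat.log 2 w + 1) := Nat.mul_le_mul_left _ h1.le
    _ = 2 * (2 ^ c * 2 ^ Nat.log 2 w) := by rw [pow_succ]; ring

lemma rhoT_le {c w : ℕ} (hw : 1 ≤ w) (h : 2 ^ c * w ≤ 2 ^ w) : rhoT c w ≤ w := by
  have h1 := (rhoT_pow c w hw).2.trans h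
  exact (Nat.pow_le_pow_iff_right (by norm_num)).1 h1

/-- the tail is tiny -/
lemma tinyT {c : ℕ} {th : ℝ} (hc : 12800 * 40000 ≤ th ^ 2 * 2 ^ c) (w : ℕ) (hw : 1 ≤ w) :
    4 * Real.exp (-((th / 200) ^ 2 * ((2 ^ rhoT c w : ℕ) : ℝ) / 64)) ≤
    4 * (1 / 2) ^ (100 * w) := by
  have h1 : ((2 ^ c * w : ℕ) : ℝ) ≤ ((2 * 2 ^ rhoT c w : ℕ) : ℝ) := by
    exact_mod_cast (rhoT_pow c w hw).1
  have h2 : -((th / 200) ^ 2 * ((2 ^ rhoT c w : ℕ) : ℝ) / 64) ≤ ((100 * w : ℕ) : ℝ) * (-1) := by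
    push_cast at h1 ⊢
    have hw0 : (0 : ℝ) ≤ w := Nat.cast_nonneg w
    have h3 := mul_le_mul_of_nonneg_right hc hw0
    have h4 := mul_le_mul_of_nonneg_left h1 (sq_nonneg th)
    have h5 : (th / 200) ^ 2 * (2 : ℝ) ^ rhoT c w / 64 = th ^ 2 * (2 * 2 ^ rhoT c w) / 5120000 := by
      ring
    rw [h5]
    have h6 : th ^ 2 * (2 ^ c * (w : ℝ)) = th ^ 2 * 2 ^ c * w := by ring
    rw [h6] at h4
    linarith
  have h3 : Real.exp (-1) ≤ 1 / 2 := by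
    have := Real.exp_neg_one_lt_d9
    linarith
  have h4 : Real.exp (-((th / 200) ^ 2 * ((2 ^ rhoT c w : ℕ) : ℝ) / 64)) ≤
      (1 / 2) ^ (100 * w) := by
    refine (Real.exp_le_exp.2 h2).trans ?_
    rw [Real.exp_nat_mul]
    exact pow_le_pow_left₀ (Real.exp_pos _).le h3 _
  linarith

lemma RDT {c w : ℕ} (h : rhoT c w ≤ w) : 2 ^ rhoT c w * 2 ^ (w - rhoT c w) = 2 ^ w := by
  rw [← pow_add]
  congr 1
  omega

/-- the tail for one frequency -/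
lemma tlT (hT : T_HFT) {c w m q r : ℕ} {th : ℝ} (hth : 0 < th)
    (hc : 12800 * 40000 ≤ th ^ 2 * 2 ^ c) (hr : rhoT c w ≤ w) (hw : 1 ≤ w) (hq : q ∈ oct m)
    (f : ℕ → ℝ) (hf : ∀ t, |f t| ≤ 1) (β : ℝ) :
    avE (2 ^ rhoT c w) (2 ^ (w - rhoT c w)) (fun e => Pool.Agent.H93.EB.ind (th / 200 ≤
      ‖smp f m (kB q r β) e (2 ^ rhoT c w) - MT c f w m q r β‖)) ≤ 4 * (1 / 2) ^ (100 * w) :=
  (tail_smp hT f hf β (th / 200) (RDT hr) (by positivity) (by positivity) hq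
    (by positivity)).trans (tinyT hc w hw)

lemma mmT {c w m q r : ℕ} {th : ℝ} (hr : rhoT c w ≤ w) (hm : m < w / 200)
    (hs : (6 : ℝ) * 2 ^ m / 2 ^ w ≤ th / 1000) (hq : q ∈ oct m) (f : ℕ → ℝ)
    (hf : ∀ t, |f t| ≤ 1) (β : ℝ) :
    ‖MT c f w m q r β - wm f w (kB q r β)‖ ≤ th / 1000 :=
  (mean_wm f hf β (RDT hr) hq (by omega)).trans hs

/-- the true side -/
lemma true_sideT (hT : T_HFT) {k c Q w m q r : ℕ} {th : ℝ} (hth : 0 < th)
    (hc : 12800 * 40000 ≤ th ^ 2 * 2 ^ c) (hQ : 0 < Q) (hQ1 : 14 / (Q : ℝ) ≤ th / 1000)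
    (hr : rhoT c w ≤ w) (hw : 1 ≤ w) (hm : m < w / 200)
    (hs : (6 : ℝ) * 2 ^ m / 2 ^ w ≤ th / 1000) (hq : q ∈ oct m)
    (f : ℕ → ℝ) (hf : ∀ t, |f t| ≤ 1) {S S' : Fin k → ℝ} {C₁ : ℝ}
    (hS : ∀ i, nd (S i - S' i) ≤ 1 / 2 ^ w) :
    Pool.Agent.H93.EB.ind (∃ β : ℝ, FarT q w S (C₁ + 3) β ∧ th ≤ ‖wm f w (kB q r β)‖) ≤
      2 * avE (2 ^ rhoT c w) (2 ^ (w - rhoT c w)) (fun e => Pool.Agent.H93.EB.ind
        (∃ j < Q * 2 ^ w, FarT q w S' C₁ (betQ Q w j) ∧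
          985 / 1000 * th ≤ ‖smp f m (kB q r (betQ Q w j)) e (2 ^ rhoT c w)‖)) := by
  obtain ⟨hq1, hq2, hq3⟩ := mem_oct hq
  have hQ0 : (0 : ℝ) < Q := by exact_mod_cast hQ
  have hQ2 : (1 : ℝ) ≤ Q := by exact_mod_cast hQ
  refine ind_le (mul_nonneg (by norm_num) (avE_nonneg fun e => ind_nn _)) ?_
  rintro ⟨β, hβ1, hβ2⟩
  obtain ⟨j, z, δ, hj, hjz, h0, h1⟩ := rndM (Q * 2 ^ w) (by positivity) β
  have h1' : δ ≤ 1 / (Q * 2 ^ w) := by
    refine h1.trans (le_of_eq ?_)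
    push_cast
    norm_num
  have hqw : q ≤ 2 ^ w := hq2.trans (Nat.pow_le_pow_right (by norm_num) (by omega))
  have h2 := wm_rndQ (r := r) f hf hq3.pos hqw hQ hjz h0 h1'
  have h3 : δ ≤ 1 / 2 ^ w := by
    refine h1'.trans (one_div_le_one_div_of_le (by positivity) ?_)
    exact le_mul_of_one_le_left (by positivity) hQ2
  have h4 := far_rndT hS hjz h0 h3 hβ1
  have h5 := mmT hr hm hs hq f hf (r := r) (betQ Q w j)
  have h6 := tlT hT hth hc hr hw hq f hf (r := r) (betQ Q w j)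
  have h7 : ((j : ℝ) / ((Q * 2 ^ w : ℕ) : ℝ)) = betQ Q w j := rfl
  rw [h7] at h2 h4
  have h8 : ∀ e : Fin (2 ^ rhoT c w) → Fin (2 ^ (w - rhoT c w)), (1 : ℝ) ≤
      Pool.Agent.H93.EB.ind (∃ j < Q * 2 ^ w, FarT q w S' C₁ (betQ Q w j) ∧
          985 / 1000 * th ≤ ‖smp f m (kB q r (betQ Q w j)) e (2 ^ rhoT c w)‖) +
      Pool.Agent.H93.EB.ind (th / 200 ≤
        ‖smp f m (kB q r (betQ Q w j)) e (2 ^ rhoT c w) - MT c f w m q r (betQ Q w j)‖) := by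
    intro e
    by_cases h9 : th / 200 ≤
        ‖smp f m (kB q r (betQ Q w j)) e (2 ^ rhoT c w) - MT c f w m q r (betQ Q w j)‖
    · rw [ind_of h9]
      have := ind_nn (∃ j < Q * 2 ^ w, FarT q w S' C₁ (betQ Q w j) ∧
          985 / 1000 * th ≤ ‖smp f m (kB q r (betQ Q w j)) e (2 ^ rhoT c w)‖)
      linarith
    · push Not at h9
      have h10 : 985 / 1000 * th ≤ ‖smp f m (kB q r (betQ Q w j)) e (2 ^ rhoT c w)‖ := by
        have a1 := norm_sub_norm_le (wm f w (kB q r (betQ Q w j))) (MT c f w m q r (betQ Q w j))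
        have a2 := norm_sub_norm_le (MT c f w m q r (betQ Q w j))
          (smp f m (kB q r (betQ Q w j)) e (2 ^ rhoT c w))
        rw [norm_sub_rev] at a1 a2
        linarith
      rw [ind_of ⟨j, hj, h4, h10⟩]
      have := ind_nn (th / 200 ≤
        ‖smp f m (kB q r (betQ Q w j)) e (2 ^ rhoT c w) - MT c f w m q r (betQ Q w j)‖)
      linarith
  have h11 := avE_mono h8
  rw [avE_const (by positivity), avE_add] at h11
  have h12 : (4 : ℝ) * (1 / 2) ^ (100 * w) ≤ 1 / 2 := by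
    have : ((1 : ℝ) / 2) ^ (100 * w) ≤ (1 / 2) ^ 3 :=
      pow_le_pow_of_le_one (by norm_num) (by norm_num) (by omega)
    linarith
  linarith

/-- the decoupled side, one residue -/
lemma dec_oneT (hT : T_HFT) {k c Q w m q r : ℕ} {th : ℝ} (hth : 0 < th)
    (hc : 12800 * 40000 ≤ th ^ 2 * 2 ^ c) (hr : rhoT c w ≤ w) (hw : 1 ≤ w) (hm : m < w / 200)
    (hs : (6 : ℝ) * 2 ^ m / 2 ^ w ≤ th / 1000) (hq : q ∈ oct m)
    (f : ℕ → ℝ) (hf : ∀ t, |f t| ≤ 1) (S : Fin k → ℝ) (C₁ : ℝ) :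
    avE (2 ^ rhoT c w) (2 ^ (w - rhoT c w)) (fun e => Pool.Agent.H93.EB.ind
        (∃ j < Q * 2 ^ w, FarT q w S C₁ (betQ Q w j) ∧
          985 / 1000 * th ≤ ‖smp f m (kB q r (betQ Q w j)) e (2 ^ rhoT c w)‖)) ≤
      Pool.Agent.H93.EB.ind (∃ β : ℝ, FarT q w S C₁ β ∧ 97 / 100 * th ≤ ‖wm f w (kB q r β)‖) +
        (Q * 2 ^ w) * (4 * (1 / 2) ^ (100 * w)) := by
  have h1 : ∀ e : Fin (2 ^ rhoT c w) → Fin (2 ^ (w - rhoT c w)), Pool.Agent.H93.EB.ind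
        (∃ j < Q * 2 ^ w, FarT q w S C₁ (betQ Q w j) ∧
          985 / 1000 * th ≤ ‖smp f m (kB q r (betQ Q w j)) e (2 ^ rhoT c w)‖) ≤
      Pool.Agent.H93.EB.ind (∃ β : ℝ, FarT q w S C₁ β ∧ 97 / 100 * th ≤ ‖wm f w (kB q r β)‖) +
      ∑ j ∈ range (Q * 2 ^ w), Pool.Agent.H93.EB.ind (th / 200 ≤
        ‖smp f m (kB q r (betQ Q w j)) e (2 ^ rhoT c w) - MT c f w m q r (betQ Q w j)‖) := by
    intro e
    have hs' : ∀ s : Finset ℕ, 0 ≤ ∑ j ∈ s, Pool.Agent.H93.EB.ind (th / 200 ≤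
        ‖smp f m (kB q r (betQ Q w j)) e (2 ^ rhoT c w) - MT c f w m q r (betQ Q w j)‖) :=
      fun s => sum_nonneg fun j _ => ind_nn _
    refine ind_le (add_nonneg (ind_nn _) (hs' _)) ?_
    rintro ⟨j, hj, hj1, hj2⟩
    by_cases h9 : th / 200 ≤
        ‖smp f m (kB q r (betQ Q w j)) e (2 ^ rhoT c w) - MT c f w m q r (betQ Q w j)‖
    · have h2 := single_le_sum (f := fun j => Pool.Agent.H93.EB.ind (th / 200 ≤
        ‖smp f m (kB q r (betQ Q w j)) e (2 ^ rhoT c w) - MT c f w m q r (betQ Q w j)‖))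
        (fun j _ => ind_nn _) (mem_range.2 hj)
      rw [ind_of h9] at h2
      have := ind_nn (∃ β : ℝ, FarT q w S C₁ β ∧ 97 / 100 * th ≤ ‖wm f w (kB q r β)‖)
      linarith
    · push Not at h9
      have h5 := mmT hr hm hs hq f hf (r := r) (betQ Q w j)
      have h10 : 97 / 100 * th ≤ ‖wm f w (kB q r (betQ Q w j))‖ := by
        have a1 := norm_sub_norm_le (MT c f w m q r (betQ Q w j)) (wm f w (kB q r (betQ Q w j)))
        have a2 := norm_sub_norm_le (smp f m (kB q r (betQ Q w j)) e (2 ^ rhoT c w))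
          (MT c f w m q r (betQ Q w j))
        linarith
      rw [ind_of ⟨betQ Q w j, hj1, h10⟩]
      have := hs' (range (Q * 2 ^ w))
      linarith
  have h2 := avE_mono h1
  rw [avE_add, avE_const (by positivity), avE_sum (range (Q * 2 ^ w)) (fun j e =>
    Pool.Agent.H93.EB.ind (th / 200 ≤
        ‖smp f m (kB q r (betQ Q w j)) e (2 ^ rhoT c w) - MT c f w m q r (betQ Q w j)‖))] at h2
  have h3 := sum_le_sum fun j (_ : j ∈ range (Q * 2 ^ w)) =>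
    tlT hT hth hc hr hw hq f hf (r := r) (betQ Q w j)
  rw [sum_const, card_range, nsmul_eq_mul] at h3
  push_cast at h3
  linarith

/-- the decoupled side, one octave -/
lemma dec_octT (hT : T_HFT) {k c Q w m : ℕ} {th : ℝ} (hth : 0 < th)
    (hc : 12800 * 40000 ≤ th ^ 2 * 2 ^ c) (hr : rhoT c w ≤ w) (hw : 1 ≤ w) (hm : m < w / 200)
    (hs : (6 : ℝ) * 2 ^ m / 2 ^ w ≤ th / 1000) (hQw : 4 * (Q : ℝ) ≤ 2 ^ (98 * w))
    (f : ℕ → ℝ) (hf : ∀ t, |f t| ≤ 1) (S : Fin k → ℝ) (C₁ : ℝ)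
    (hdet : ∑ q ∈ oct m, (∑ r ∈ range q, Pool.Agent.H93.EB.ind (∃ β : ℝ, FarT q w S C₁ β ∧
      97 / 100 * th ≤ ‖wm f w (kB q r β)‖)) / q ≤ (1 / 2) ^ (m / 8) * (oct m).card) :
    ∑ q ∈ oct m, (∑ r ∈ range q, avE (2 ^ rhoT c w) (2 ^ (w - rhoT c w)) (fun e =>
      Pool.Agent.H93.EB.ind (∃ j < Q * 2 ^ w, FarT q w S C₁ (betQ Q w j) ∧
        985 / 1000 * th ≤ ‖smp f m (kB q r (betQ Q w j)) e (2 ^ rhoT c w)‖))) / q ≤
      2 * (1 / 2) ^ (m / 8) * (oct m).card := by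
  have ht : (Q * 2 ^ w) * (4 * (1 / 2) ^ (100 * w)) ≤ ((1 : ℝ) / 2) ^ (m / 8) := by
    have e1 : ((1 : ℝ) / 2) ^ (100 * w) = (1 / 2) ^ w * ((1 / 2) ^ w * (1 / 2) ^ (98 * w)) := by
      rw [← pow_add, ← pow_add]
      congr 1
      ring
    have e2 : (2 : ℝ) ^ w * (1 / 2) ^ w = 1 := by
      rw [← mul_pow]
      norm_num
    have e2' : (2 : ℝ) ^ (98 * w) * (1 / 2) ^ (98 * w) = 1 := by
      rw [← mul_pow]
      norm_num
    have e3 : (Q * 2 ^ w) * (4 * (1 / 2) ^ (100 * w)) =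
        (4 * Q * ((1 : ℝ) / 2) ^ (98 * w)) * (1 / 2) ^ w := by
      rw [e1]
      calc (Q * 2 ^ w) * (4 * ((1 / 2) ^ w * ((1 / 2) ^ w * (1 / 2) ^ (98 * w)))) =
            (4 * Q * ((1 : ℝ) / 2) ^ (98 * w)) * (1 / 2) ^ w * (2 ^ w * (1 / 2) ^ w) := by
            ring
        _ = _ := by rw [e2, mul_one]
    rw [e3]
    have e5 : 4 * Q * ((1 : ℝ) / 2) ^ (98 * w) ≤ 1 := by
      refine (mul_le_mul_of_nonneg_right hQw (by positivity)).trans (le_of_eq e2')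
    have e6 : ((1 : ℝ) / 2) ^ w ≤ (1 / 2) ^ (m / 8) :=
      pow_le_pow_of_le_one (by norm_num) (by norm_num) (by omega)
    refine le_trans ?_ e6
    exact mul_le_of_le_one_left (by positivity) e5
  have h1 : ∀ q ∈ oct m, (∑ r ∈ range q, avE (2 ^ rhoT c w) (2 ^ (w - rhoT c w)) (fun e =>
      Pool.Agent.H93.EB.ind (∃ j < Q * 2 ^ w, FarT q w S C₁ (betQ Q w j) ∧
        985 / 1000 * th ≤ ‖smp f m (kB q r (betQ Q w j)) e (2 ^ rhoT c w)‖))) / (q : ℝ) ≤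
      (∑ r ∈ range q, Pool.Agent.H93.EB.ind (∃ β : ℝ, FarT q w S C₁ β ∧
        97 / 100 * th ≤ ‖wm f w (kB q r β)‖)) / q + (1 / 2) ^ (m / 8) := by
    intro q hq
    obtain ⟨hq1, hq2, hq3⟩ := mem_oct hq
    have hq0 : (0 : ℝ) < q := by exact_mod_cast hq3.pos
    have h2 := sum_le_sum fun r (_ : r ∈ range q) =>
      dec_oneT hT hth hc hr hw hm hs hq f hf S C₁ (Q := Q) (r := r)
    rw [sum_add_distrib, sum_const, card_range, nsmul_eq_mul] at h2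
    rw [div_le_iff₀ hq0, add_mul, div_mul_cancel₀ _ hq0.ne']
    refine h2.trans ?_
    have h3 := mul_le_mul_of_nonneg_left ht hq0.le
    linarith
  refine (sum_le_sum h1).trans ?_
  rw [sum_add_distrib, sum_const, nsmul_eq_mul]
  linarith

/-- one octave -/
lemma oct_BT (hO : T_DVO) (hT : T_HFT) {k c Q w m : ℕ} {th : ℝ} (hth : 0 < th)
    (hc : 12800 * 40000 ≤ th ^ 2 * 2 ^ c) (hQ : 0 < Q) (hQ1 : 14 / (Q : ℝ) ≤ th / 1000)
    (hr : rhoT c w ≤ w) (hw : 1 ≤ w) (hm : m < w / 200)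
    (hs : (6 : ℝ) * 2 ^ m / 2 ^ w ≤ th / 1000) (hQw : 4 * (Q : ℝ) ≤ 2 ^ (98 * w))
    {C₁ κ : ℝ} (hκ : 0 < κ) (N : ℕ) [NeZero N] (x : ZMod N → Bool) (S : ZMod N → Fin k → ℝ)
    (l : ZMod N → Fin ((2 ^ w) ^ k)) (hl : ∀ n i, nd (S n i - decT w (l n) i) ≤ 1 / 2 ^ w)
    (hN : primorial (2 ^ (m + 1)) ∣ N)
    (hdet : ∀ n, ∑ q ∈ oct m, (∑ r ∈ range q, Pool.Agent.H93.EB.ind (∃ β : ℝ,
      FarT q w (decT w (l n)) C₁ β ∧ 97 / 100 * th ≤ ‖wm (ltr x n) w (kB q r β)‖)) / (q : ℝ) ≤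
        (1 / 2) ^ (m / 8) * (oct m).card) :
    avZ (fun n => ∑ q ∈ oct m, Pool.Agent.H93.EB.ind (∃ β : ℝ, FarT q w (S n) (C₁ + 3) β ∧
      th ≤ ‖wm (ltr x n) w (kB q n.val β)‖)) ≤
    2 / κ * (avE (2 ^ rhoT c w) (2 ^ (w - rhoT c w)) (fun e =>
      info (tup x (pos e)) (2 ^ m) (primorial (2 ^ m)) (pr m)) + k * w * Real.log 2 +
      Real.exp κ * (2 * (1 / 2) ^ (m / 8) * (oct m).card)) := by
  have hD : 0 < 2 ^ (w - rhoT c w) := by positivity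
  have hE := Real.exp_pos κ
  -- the inequality of Donsker and Varadhan
  have hdvo : ∀ e : Fin (2 ^ rhoT c w) → Fin (2 ^ (w - rhoT c w)),
      avZ (fun n => ∑ q ∈ oct m, κ * XT c Q th C₁ w m e q (wd (tup x (pos e)) (2 ^ m) n)
        (decT w (l n)) (n.val % q)) ≤
      info (tup x (pos e)) (2 ^ m) (primorial (2 ^ m)) (pr m) + k * w * Real.log 2 +
        avZ (fun n => ∑ q ∈ oct m, Real.exp κ * ((∑ r ∈ range q,
          XT c Q th C₁ w m e q (wd (tup x (pos e)) (2 ^ m) n) (decT w (l n)) r) / q)) := by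
    intro e
    have h1 := hO N (2 ^ rhoT c w) m ((2 ^ w) ^ k) x (pos e) l
      (fun q W lab r => κ * XT c Q th C₁ w m e q W (decT w lab) r) hN
    have h2 : Real.log (((2 ^ w) ^ k : ℕ) : ℝ) = k * w * Real.log 2 := by
      push_cast
      rw [Real.log_pow, Real.log_pow]
      ring
    rw [h2] at h1
    refine h1.trans ?_
    have h3 : avZ (fun n => ∑ q ∈ oct m, Real.log ((∑ r ∈ range q,
        Real.exp (κ * XT c Q th C₁ w m e q (wd (tup x (pos e)) (2 ^ m) n) (decT w (l n)) r))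
          / q)) ≤
        avZ (fun n => ∑ q ∈ oct m, Real.exp κ * ((∑ r ∈ range q,
          XT c Q th C₁ w m e q (wd (tup x (pos e)) (2 ^ m) n) (decT w (l n)) r) / q)) := by
      refine avZ_mono fun n => sum_le_sum fun q hq => ?_
      have hq0 : (0 : ℝ) < q := by exact_mod_cast (mem_oct hq).2.2.pos
      obtain ⟨X, hX⟩ : ∃ X : ℕ → ℝ, X = fun r =>
        XT c Q th C₁ w m e q (wd (tup x (pos e)) (2 ^ m) n) (decT w (l n)) r := ⟨_, rfl⟩
      have hX0 : ∀ r, 0 ≤ X r := by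
        intro r
        rw [hX]
        exact ind_nn _
      have hX1 : ∀ r, Real.exp (κ * X r) ≤ 1 + Real.exp κ * X r := by
        intro r
        rw [hX]
        exact exp_ind
      have h4 : (∑ r ∈ range q, Real.exp (κ * X r)) / q ≤
          1 + Real.exp κ * ((∑ r ∈ range q, X r) / q) := by
        rw [div_le_iff₀ hq0]
        refine (sum_le_sum fun r _ => hX1 r).trans (le_of_eq ?_)
        rw [sum_add_distrib, ← mul_sum, sum_const, card_range, nsmul_eq_mul, mul_one]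
        field_simp
      have h5 : 0 < (∑ r ∈ range q, Real.exp (κ * X r)) / q := by
        refine div_pos (sum_pos (fun r _ => Real.exp_pos _) ⟨0, mem_range.2 ?_⟩) hq0
        exact (mem_oct hq).2.2.pos
      have h6 := Real.log_le_sub_one_of_pos h5
      rw [hX] at h4 h6
      linarith
    linarith
  have h1 := avE_mono hdvo
  rw [avE_add, avE_add, avE_const hD, ← avZ_avE (fun n e => ∑ q ∈ oct m, κ *
    XT c Q th C₁ w m e q (wd (tup x (pos e)) (2 ^ m) n) (decT w (l n)) (n.val % q)),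
    ← avZ_avE (fun n e => ∑ q ∈ oct m, Real.exp κ * ((∑ r ∈ range q,
          XT c Q th C₁ w m e q (wd (tup x (pos e)) (2 ^ m) n) (decT w (l n)) r) / q))] at h1
  -- the test as an event for the samples
  have hXX : ∀ (n : ZMod N) (q r : ℕ) (e : Fin (2 ^ rhoT c w) → Fin (2 ^ (w - rhoT c w))),
      XT c Q th C₁ w m e q (wd (tup x (pos e)) (2 ^ m) n) (decT w (l n)) r =
      Pool.Agent.H93.EB.ind (∃ j < Q * 2 ^ w, FarT q w (decT w (l n)) C₁ (betQ Q w j) ∧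
        985 / 1000 * th ≤ ‖smp (ltr x n) m (kB q r (betQ Q w j)) e (2 ^ rhoT c w)‖) := by
    intro n q r e
    unfold XT
    congr 1
    simp only [smp_eq]
  have h2 : avZ (fun n => avE (2 ^ rhoT c w) (2 ^ (w - rhoT c w)) (fun e => ∑ q ∈ oct m,
      Real.exp κ * ((∑ r ∈ range q,
          XT c Q th C₁ w m e q (wd (tup x (pos e)) (2 ^ m) n) (decT w (l n)) r) / q))) ≤
      Real.exp κ * (2 * (1 / 2) ^ (m / 8) * (oct m).card) := by
    have h3 : ∀ n : ZMod N, avE (2 ^ rhoT c w) (2 ^ (w - rhoT c w)) (fun e => ∑ q ∈ oct m,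
      Real.exp κ * ((∑ r ∈ range q,
          XT c Q th C₁ w m e q (wd (tup x (pos e)) (2 ^ m) n) (decT w (l n)) r) / q)) ≤
        Real.exp κ * (2 * (1 / 2) ^ (m / 8) * (oct m).card) := by
      intro n
      rw [avE_sum (oct m) (fun q e => Real.exp κ * ((∑ r ∈ range q,
          XT c Q th C₁ w m e q (wd (tup x (pos e)) (2 ^ m) n) (decT w (l n)) r) / q))]
      have h4 : ∀ q ∈ oct m, avE (2 ^ rhoT c w) (2 ^ (w - rhoT c w)) (fun e =>
          Real.exp κ * ((∑ r ∈ range q,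
          XT c Q th C₁ w m e q (wd (tup x (pos e)) (2 ^ m) n) (decT w (l n)) r) / q)) =
          Real.exp κ * ((∑ r ∈ range q, avE (2 ^ rhoT c w) (2 ^ (w - rhoT c w)) (fun e =>
            Pool.Agent.H93.EB.ind (∃ j < Q * 2 ^ w,
              FarT q w (decT w (l n)) C₁ (betQ Q w j) ∧
        985 / 1000 * th ≤ ‖smp (ltr x n) m (kB q r (betQ Q w j)) e (2 ^ rhoT c w)‖))) / q) := by
        intro q _
        rw [avE_mul, avE_div, avE_sum (range q) (fun r e =>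
          XT c Q th C₁ w m e q (wd (tup x (pos e)) (2 ^ m) n) (decT w (l n)) r)]
        congr 2
        refine sum_congr rfl fun r _ => ?_
        congr 1
        funext e
        exact hXX n q r e
      rw [sum_congr rfl h4, ← mul_sum]
      exact mul_le_mul_of_nonneg_left
        (dec_octT hT hth hc hr hw hm hs hQw (ltr x n) (abs_ltr x n) (decT w (l n)) C₁
          (hdet n)) hE.le
    refine (avZ_mono h3).trans (le_of_eq ?_)
    rw [avZ_const]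
  have h5 : avZ (fun n => ∑ q ∈ oct m, Pool.Agent.H93.EB.ind (∃ β : ℝ,
      FarT q w (S n) (C₁ + 3) β ∧ th ≤ ‖wm (ltr x n) w (kB q n.val β)‖)) ≤
      2 / κ * avZ (fun n => avE (2 ^ rhoT c w) (2 ^ (w - rhoT c w)) (fun e => ∑ q ∈ oct m, κ *
        XT c Q th C₁ w m e q (wd (tup x (pos e)) (2 ^ m) n) (decT w (l n)) (n.val % q))) := by
    rw [← avZ_mul]
    refine avZ_mono fun n => ?_
    rw [avE_sum (oct m) (fun q e => κ *
        XT c Q th C₁ w m e q (wd (tup x (pos e)) (2 ^ m) n) (decT w (l n)) (n.val % q)),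
        mul_sum]
    refine sum_le_sum fun q hq => ?_
    rw [avE_mul, ← mul_assoc, div_mul_cancel₀ _ hκ.ne']
    have h6 := true_sideT hT hth hc hQ hQ1 hr hw hm hs hq (ltr x n) (abs_ltr x n) (S := S n)
      (S' := decT w (l n)) (C₁ := C₁) (r := n.val) (hl n)
    have h7 : (fun e => XT c Q th C₁ w m e q (wd (tup x (pos e)) (2 ^ m) n) (decT w (l n))
        (n.val % q)) =
        fun e : Fin (2 ^ rhoT c w) → Fin (2 ^ (w - rhoT c w)) => Pool.Agent.H93.EB.ind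
        (∃ j < Q * 2 ^ w, FarT q w (decT w (l n)) C₁ (betQ Q w j) ∧
          985 / 1000 * th ≤
            ‖smp (ltr x n) m (kB q n.val (betQ Q w j)) e (2 ^ rhoT c w)‖) := by
      funext e
      rw [hXX]
      simp only [kB_mod]
    rw [h7]
    exact h6
  refine h5.trans (mul_le_mul_of_nonneg_left ?_ (by positivity))
  linarith

end Pool.Agent.H81.GS
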